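import Pool.Agent.V5helper54.CB.First

/-! # The prime number theorem in all subintervals of almost all intervals between consecutive cubes -/

set_option autoImplicit false

namespace Pool.Agent.V5helper54.CB

open Finset Filter
open Pool.Agent.V5helper50.PW (sq_sum th th_le psi_theta)

/-- the error term in `(m, m + Y]` -/
noncomputable def er (Y m : ℕ) : ℝ := ∑ n ∈ Ioc m (m + Y), ArithmeticFunction.vonMangoldt n - Y

/-- averaging over windows -/
lemma psi_ge (Y a b : ℕ) (hY : 0 < Y) (hab : a + Y ≤ b) :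
    ((b : ℝ) - a - Y) * Y + ∑ m ∈ Ico a (b - Y), er Y m ≤ Y * ∑ n ∈ Ioc a b, ArithmeticFunction.vonMangoldt n := by
  classical
  have h1 : ∑ m ∈ Ico a (b - Y), ∑ n ∈ Ioc m (m + Y), ArithmeticFunction.vonMangoldt n ≤
      Y * ∑ n ∈ Ioc a b, ArithmeticFunction.vonMangoldt n := by
    have h2 : ∑ m ∈ Ico a (b - Y), ∑ n ∈ Ioc m (m + Y), ArithmeticFunction.vonMangoldt n =
        ∑ m ∈ Ico a (b - Y), ∑ n ∈ Ioc a b, if m < n ∧ n ≤ m + Y then ArithmeticFunction.vonMangoldt n else 0 := by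
      apply sum_congr rfl
      intro m hm
      rw [mem_Ico] at hm
      rw [← sum_filter]
      apply sum_congr _ fun _ _ => rfl
      ext n
      rw [mem_filter, mem_Ioc, mem_Ioc]
      omega
    rw [h2, sum_comm, mul_sum]
    apply sum_le_sum
    intro n _
    rw [← sum_filter, sum_const, nsmul_eq_mul]
    apply mul_le_mul_of_nonneg_right _ ArithmeticFunction.vonMangoldt_nonneg
    have h3 : ((Ico a (b - Y)).filter (fun m => m < n ∧ n ≤ m + Y)).card ≤ (Ico (n - Y) n).card := by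
      apply card_le_card
      intro m hm
      rw [mem_filter] at hm
      rw [mem_Ico]
      omega
    rw [Nat.card_Ico] at h3
    have h4 : ((Ico a (b - Y)).filter (fun m => m < n ∧ n ≤ m + Y)).card ≤ Y := by omega
    exact_mod_cast h4
  refine le_trans (le_of_eq ?_) h1
  have h5 : ((b : ℝ) - a - Y) * Y = ∑ m ∈ Ico a (b - Y), (Y : ℝ) := by
    rw [sum_const, Nat.card_Ico, nsmul_eq_mul]
    congr 1
    have h6 : b - Y - a + (a + Y) = b := by omega
    have h7 : ((b - Y - a : ℕ) : ℝ) + (a + Y) = b := by exact_mod_cast h6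
    linarith
  rw [h5, ← sum_add_distrib]
  apply sum_congr rfl
  intro m _
  unfold er
  ring

theorem pnt_most (A : ℕ) (η : ℝ) (hη : 0 < η) : ∃ N₀ : ℕ, ∀ N : ℕ, N₀ ≤ N → ∃ E : Finset ℕ,
    (E.card : ℝ) ≤ N / Real.log N ^ A ∧ ∀ n : ℕ, N < n → n ≤ 2 * N → n ∉ E → ∀ a b : ℕ, n ^ 3 ≤ a → a ≤ b →
      b ≤ (n + 1) ^ 3 → (b : ℝ) - a - η * (N : ℝ) ^ 2 ≤ (Pr a b).card * ((1 + η) * (3 * Real.log N)) := by
  classical
  obtain ⟨y0, hy0⟩ := eventually_atTop.1 (sq_sum (1 / 12) (by norm_num) (by norm_num) (A + 3))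
  have hlogt : Tendsto (fun x : ℕ => Real.log (x : ℝ)) atTop atTop :=
    Real.tendsto_log_atTop.comp tendsto_natCast_atTop_atTop
  obtain ⟨n1, hn1⟩ := eventually_atTop.1 (hlogt.eventually_ge_atTop (15 + 3 / η + 18 / η))
  obtain ⟨n2, hn2⟩ := eventually_atTop.1 (Pool.Agent.V5helper50.PW.log_le_rpow (a := 1 / 4) (by norm_num) 1)
  obtain ⟨n3, hn3⟩ := exists_nat_ge (((3 * 40) / η) ^ 4 + 3 / η + 16)
  refine ⟨max y0 (max n1 (max n2 n3)), fun N hN => ?_⟩
  have b1 : y0 ≤ N := le_trans (le_max_left _ _) hN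
  have b2 : n1 ≤ N := le_trans (le_trans (le_max_left _ _) (le_max_right _ _)) hN
  have b3 : n2 ≤ N := le_trans (le_trans (le_trans (le_max_left _ _) (le_max_right _ _)) (le_max_right _ _)) hN
  have b4 : n3 ≤ N := le_trans (le_trans (le_trans (le_max_right _ _) (le_max_right _ _)) (le_max_right _ _)) hN
  have hL := hn1 N b2
  have hlp := hn2 N b3
  rw [pow_one] at hlp
  have hN3 : ((3 * 40) / η) ^ 4 + 3 / η + 16 ≤ (N : ℝ) := hn3.trans (by exact_mod_cast b4)
  have e1 : 0 < 3 / η := by positivity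
  have e2 : 0 < 18 / η := by positivity
  have e3 : 0 < ((3 * 40) / η) ^ 4 := by positivity
  have hN16 : (16 : ℝ) ≤ N := by linarith
  have hN16' : 16 ≤ N := by exact_mod_cast hN16
  have hN0 : (0 : ℝ) < N := by linarith
  obtain ⟨L, hLd⟩ : ∃ L, L = Real.log (N : ℝ) := ⟨_, rfl⟩
  rw [← hLd] at hL hlp ⊢
  have hL15 : 15 ≤ L := by linarith
  have hL0 : 0 < L := by linarith
  have hLη : 18 ≤ η * L := by
    have h1 : η * (18 / η) ≤ η * L := mul_le_mul_of_nonneg_left (by linarith) hη.le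
    rwa [mul_div_cancel₀ _ hη.ne'] at h1
  have hNη : 3 ≤ η * N := by
    have h1 : η * (3 / η) ≤ η * N := mul_le_mul_of_nonneg_left (by linarith) hη.le
    rwa [mul_div_cancel₀ _ hη.ne'] at h1
  obtain ⟨F, hF⟩ : ∃ F : ℕ → ℝ, F = fun n => ∑ m ∈ Ico (n ^ 3) ((n + 1) ^ 3), er N m ^ 2 := ⟨_, rfl⟩
  obtain ⟨t, ht⟩ : ∃ t : ℝ, t = (N : ℝ) ^ 4 / L ^ 2 := ⟨_, rfl⟩
  have ht0 : 0 < t := by rw [ht]; positivity
  -- the total
  have htot : ∑ n ∈ Ioc N (2 * N), F n ≤ 15 * (N : ℝ) ^ 5 / L ^ (A + 3) := by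
    have h1 : ∑ n ∈ Ioc N (2 * N), F n ≤ ∑ m ∈ Ioc (N ^ 3) (16 * N ^ 3), er N m ^ 2 := by
      rw [hF, ← sum_biUnion]
      · apply sum_le_sum_of_subset_of_nonneg
        · intro m hm
          rw [mem_biUnion] at hm
          obtain ⟨n, hn, hm⟩ := hm
          rw [mem_Ioc] at hn
          rw [mem_Ico] at hm
          rw [mem_Ioc]
          have h2 : (N + 1) ^ 3 ≤ n ^ 3 := Nat.pow_le_pow_left hn.1 3
          have h3 : N ^ 3 < (N + 1) ^ 3 := Nat.pow_lt_pow_left (by omega) (by norm_num)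
          have h4 : 4 * (n + 1) ≤ 9 * N := by omega
          have h5 : (4 * (n + 1)) ^ 3 ≤ (9 * N) ^ 3 := Nat.pow_le_pow_left h4 3
          rw [mul_pow, mul_pow] at h5
          norm_num at h5
          omega
        · intro m _ _
          exact sq_nonneg _
      · intro n _ n' _ hnn
        rw [Function.onFun, disjoint_left]
        intro j h3 h4
        rw [mem_Ico] at h3 h4
        rcases lt_or_gt_of_ne hnn with h | h
        · have h5 : (n + 1) ^ 3 ≤ n' ^ 3 := Nat.pow_le_pow_left h 3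
          omega
        · have h5 : (n' + 1) ^ 3 ≤ n ^ 3 := Nat.pow_le_pow_left h 3
          omega
    refine h1.trans ?_
    have hN3' : N ≤ N ^ 3 := Nat.le_self_pow (by norm_num) N
    have hone : ∀ i < 4, ∑ m ∈ Ioc (2 ^ i * N ^ 3) (2 * (2 ^ i * N ^ 3)), er N m ^ 2 ≤
        2 ^ i * ((N : ℝ) ^ 5 / L ^ (A + 3)) := by
      intro i hi
      have h1 : N ^ 3 ≤ 2 ^ i * N ^ 3 := Nat.le_mul_of_pos_left _ (by positivity)
      have h2 : (2 : ℕ) ^ i ≤ 8 := by interval_cases i <;> norm_num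
      have h3 : ((2 ^ i * N ^ 3 : ℕ) : ℝ) ≤ 8 * (N : ℝ) ^ 3 := by
        have : 2 ^ i * N ^ 3 ≤ 8 * N ^ 3 := Nat.mul_le_mul_right _ h2
        exact_mod_cast this
      have h4 : (N : ℝ) ≤ ((2 ^ i * N ^ 3 : ℕ) : ℝ) := by exact_mod_cast hN3'.trans h1
      have h5 : (((2 ^ i * N ^ 3 : ℕ) : ℝ)) ^ (1 / 6 + 1 / 12 : ℝ) ≤ N := by
        calc (((2 ^ i * N ^ 3 : ℕ) : ℝ)) ^ (1 / 6 + 1 / 12 : ℝ) ≤ (8 * (N : ℝ) ^ 3) ^ (1 / 6 + 1 / 12 : ℝ) :=
              Real.rpow_le_rpow (by positivity) h3 (by norm_num)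
          _ ≤ ((N : ℝ) ^ 4) ^ (1 / 6 + 1 / 12 : ℝ) := by
              apply Real.rpow_le_rpow (by positivity) _ (by norm_num)
              have : (N : ℝ) ^ 4 = N * (N : ℝ) ^ 3 := by ring
              rw [this]
              apply mul_le_mul_of_nonneg_right _ (by positivity)
              linarith
          _ = N := by
              rw [← Real.rpow_natCast, ← Real.rpow_mul hN0.le]
              norm_num
      have h6 := hy0 (2 ^ i * N ^ 3) (by omega) N h5 (by omega)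
      have h7 : ∑ m ∈ Ioc (2 ^ i * N ^ 3) (2 * (2 ^ i * N ^ 3)), er N m ^ 2 ≤
        ((2 ^ i * N ^ 3 : ℕ) : ℝ) * (N : ℝ) ^ 2 / Real.log ((2 ^ i * N ^ 3 : ℕ) : ℝ) ^ (A + 3) := h6
      refine h7.trans ?_
      have h8 : L ≤ Real.log ((2 ^ i * N ^ 3 : ℕ) : ℝ) := by rw [hLd]; exact Real.log_le_log hN0 h4
      have h9 : ((2 ^ i * N ^ 3 : ℕ) : ℝ) * (N : ℝ) ^ 2 = 2 ^ i * (N : ℝ) ^ 5 := by push_cast; ring
      rw [h9, ← mul_div_assoc]
      gcongr
    have hsplit : Ioc (N ^ 3) (16 * N ^ 3) ⊆ (range 4).biUnion (fun i => Ioc (2 ^ i * N ^ 3) (2 * (2 ^ i * N ^ 3))) := by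
      intro m hm
      rw [mem_Ioc] at hm
      rw [mem_biUnion]
      by_cases g1 : m ≤ 2 * N ^ 3
      · exact ⟨0, by simp, by rw [mem_Ioc]; omega⟩
      by_cases g2 : m ≤ 4 * N ^ 3
      · exact ⟨1, by simp, by rw [mem_Ioc]; omega⟩
      by_cases g3 : m ≤ 8 * N ^ 3
      · exact ⟨2, by simp, by rw [mem_Ioc]; omega⟩
      · exact ⟨3, by simp, by rw [mem_Ioc]; omega⟩
    have hdis : Set.PairwiseDisjoint (↑(range 4)) (fun i => Ioc (2 ^ i * N ^ 3) (2 * (2 ^ i * N ^ 3))) := by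
      intro i _ j _ hij
      rw [Function.onFun, disjoint_left]
      intro m h3 h4
      rw [mem_Ioc] at h3 h4
      rcases lt_or_gt_of_ne hij with h | h
      · have h5 : 2 ^ (i + 1) * N ^ 3 ≤ 2 ^ j * N ^ 3 := Nat.mul_le_mul_right _ (Nat.pow_le_pow_right (by norm_num) h)
        rw [pow_succ] at h5
        have h6 : 2 ^ i * 2 * N ^ 3 = 2 * (2 ^ i * N ^ 3) := by ring
        omega
      · have h5 : 2 ^ (j + 1) * N ^ 3 ≤ 2 ^ i * N ^ 3 := Nat.mul_le_mul_right _ (Nat.pow_le_pow_right (by norm_num) h)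
        rw [pow_succ] at h5
        have h6 : 2 ^ j * 2 * N ^ 3 = 2 * (2 ^ j * N ^ 3) := by ring
        omega
    calc ∑ m ∈ Ioc (N ^ 3) (16 * N ^ 3), er N m ^ 2 ≤
        ∑ m ∈ (range 4).biUnion (fun i => Ioc (2 ^ i * N ^ 3) (2 * (2 ^ i * N ^ 3))), er N m ^ 2 :=
          sum_le_sum_of_subset_of_nonneg hsplit fun _ _ _ => sq_nonneg _
      _ = ∑ i ∈ range 4, ∑ m ∈ Ioc (2 ^ i * N ^ 3) (2 * (2 ^ i * N ^ 3)), er N m ^ 2 := sum_biUnion hdis
      _ ≤ ∑ i ∈ range 4, 2 ^ i * ((N : ℝ) ^ 5 / L ^ (A + 3)) := sum_le_sum fun i hi => hone i (mem_range.1 hi)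
      _ = 15 * (N : ℝ) ^ 5 / L ^ (A + 3) := by
          rw [← sum_mul]
          have h3 : ∑ i ∈ range 4, (2 : ℝ) ^ i = 15 := by norm_num [sum_range_succ]
          rw [h3]
          ring
  refine ⟨(Ioc N (2 * N)).filter (fun n => t < F n), ?_, ?_⟩
  · have h1 : (((Ioc N (2 * N)).filter (fun n => t < F n)).card : ℝ) * t ≤ ∑ n ∈ Ioc N (2 * N), F n := by
      calc (((Ioc N (2 * N)).filter (fun n => t < F n)).card : ℝ) * t = ∑ _n ∈ (Ioc N (2 * N)).filter (fun n => t < F n), t := by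
            rw [sum_const, nsmul_eq_mul]
        _ ≤ ∑ n ∈ (Ioc N (2 * N)).filter (fun n => t < F n), F n :=
            sum_le_sum fun n hn => (mem_filter.1 hn).2.le
        _ ≤ _ := by
            apply sum_le_sum_of_subset_of_nonneg (filter_subset _ _)
            intro n _ _
            rw [hF]
            exact sum_nonneg fun _ _ => sq_nonneg _
    have h2 := h1.trans htot
    rw [← le_div_iff₀ ht0] at h2
    refine h2.trans ?_
    rw [ht, div_div_div_eq, div_le_div_iff₀ (by positivity) (by positivity)]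
    have h3 : 15 * (N : ℝ) ^ 5 * L ^ 2 * L ^ A = 15 * ((N : ℝ) ^ 5 * (L ^ 2 * L ^ A)) := by ring
    have h4 : (N : ℝ) * (L ^ (A + 3) * (N : ℝ) ^ 4) = L * ((N : ℝ) ^ 5 * (L ^ 2 * L ^ A)) := by
      rw [pow_add]
      ring
    rw [h3, h4]
    exact mul_le_mul_of_nonneg_right hL15 (by positivity)
  · intro n hn1 hn2 hnE a b ha hab hb
    have hFn : F n ≤ t := by
      by_contra hcon
      exact hnE (mem_filter.2 ⟨mem_Ioc.2 ⟨hn1, hn2⟩, not_le.1 hcon⟩)
    have hPr0 : (0 : ℝ) ≤ (Pr a b).card * ((1 + η) * (3 * L)) := by positivity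
    have hNηN : (N : ℝ) ≤ η / 3 * (N : ℝ) ^ 2 := by
      have : η / 3 * (N : ℝ) ^ 2 = (η * N) * N / 3 := by ring
      rw [this]
      have h2 := mul_le_mul_of_nonneg_right hNη hN0.le
      linarith
    by_cases hbig : b < a + N
    · have h1 : (b : ℝ) ≤ a + N := by exact_mod_cast hbig.le
      have h2 : (0 : ℝ) ≤ η / 3 * (N : ℝ) ^ 2 := by positivity
      linarith
    push Not at hbig
    have h1 := psi_ge N a b (by omega) hbig
    -- the error terms
    have hcubeN : (n + 1) ^ 3 = n ^ 3 + 3 * n ^ 2 + 3 * n + 1 := by ring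
    have hba : (b : ℝ) - a ≤ 36 * (N : ℝ) ^ 2 := by
      have h2 : b ≤ a + 3 * n ^ 2 + 3 * n + 1 := by omega
      have h3 : (b : ℝ) ≤ a + 3 * (n : ℝ) ^ 2 + 3 * n + 1 := by exact_mod_cast h2
      have h4 : (n : ℝ) ≤ 2 * N := by exact_mod_cast hn2
      have h5 : (n : ℝ) ^ 2 ≤ (2 * (N : ℝ)) ^ 2 := pow_le_pow_left₀ (Nat.cast_nonneg _) h4 2
      have h6 : (16 : ℝ) * N ≤ (N : ℝ) ^ 2 := by
        rw [sq]
        exact mul_le_mul_of_nonneg_right hN16 hN0.le
      have h7 : (2 * (N : ℝ)) ^ 2 = 4 * (N : ℝ) ^ 2 := by ring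
      rw [h7] at h5
      linarith
    have h2 : |∑ m ∈ Ico a (b - N), er N m| ≤ 6 * (N : ℝ) ^ 3 / L := by
      have h3 : (∑ m ∈ Ico a (b - N), er N m) ^ 2 ≤ (Ico a (b - N)).card * ∑ m ∈ Ico a (b - N), er N m ^ 2 :=
        sq_sum_le_card_mul_sum_sq
      have h4 : ∑ m ∈ Ico a (b - N), er N m ^ 2 ≤ t := by
        refine le_trans ?_ hFn
        rw [hF]
        apply sum_le_sum_of_subset_of_nonneg
        · intro m hm
          rw [mem_Ico] at hm ⊢
          omega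
        · intro _ _ _
          exact sq_nonneg _
      have h5 : ((Ico a (b - N)).card : ℝ) ≤ 36 * (N : ℝ) ^ 2 := by
        rw [Nat.card_Ico]
        have h6 : (b - N - a) + a ≤ b := by omega
        have h7 : ((b - N - a : ℕ) : ℝ) + a ≤ b := by exact_mod_cast h6
        linarith
      have h6 : (∑ m ∈ Ico a (b - N), er N m) ^ 2 ≤ (6 * (N : ℝ) ^ 3 / L) ^ 2 := by
        refine h3.trans ((mul_le_mul h5 h4 (sum_nonneg fun _ _ => sq_nonneg _) (by positivity)).trans (le_of_eq ?_))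
        rw [ht]
        ring
      exact abs_le_of_sq_le_sq h6 (by positivity)
    have h3 : (b : ℝ) - a - N - 6 * (N : ℝ) ^ 2 / L ≤ ∑ k ∈ Ioc a b, ArithmeticFunction.vonMangoldt k := by
      have h4 := (abs_le.1 h2).1
      have h5 : N * ((b : ℝ) - a - N - 6 * (N : ℝ) ^ 2 / L) ≤ N * ∑ k ∈ Ioc a b, ArithmeticFunction.vonMangoldt k := by
        refine le_trans ?_ h1
        have h6 : N * ((b : ℝ) - a - N - 6 * (N : ℝ) ^ 2 / L) = ((b : ℝ) - a - N) * N - 6 * (N : ℝ) ^ 3 / L := by ring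
        rw [h6]
        linarith
      exact le_of_mul_le_mul_left h5 hN0
    -- the prime powers
    have h16 : b ≤ 16 * N ^ 3 := by
      have h4 : 4 * (n + 1) ≤ 9 * N := by omega
      have h5 : (4 * (n + 1)) ^ 3 ≤ (9 * N) ^ 3 := Nat.pow_le_pow_left h4 3
      rw [mul_pow, mul_pow] at h5
      norm_num at h5
      omega
    have h4 : ∑ k ∈ Ioc a b, (ArithmeticFunction.vonMangoldt k - th k) ≤ 40 * (N : ℝ) ^ (7 / 4 : ℝ) := by
      have h5 := psi_theta (16 * N ^ 3) (Nat.one_le_iff_ne_zero.2 (by positivity))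
      have h6 : ∑ k ∈ Ioc a b, (ArithmeticFunction.vonMangoldt k - th k) ≤
          ∑ k ∈ Ioc 0 (16 * N ^ 3), (ArithmeticFunction.vonMangoldt k - th k) := by
        apply sum_le_sum_of_subset_of_nonneg
        · intro k hk
          rw [mem_Ioc] at hk ⊢
          omega
        · intro k _ _
          have := th_le k
          linarith
      refine h6.trans (h5.trans ?_)
      have h7 : √((16 * N ^ 3 : ℕ) : ℝ) = 4 * (N : ℝ) ^ (3 / 2 : ℝ) := by
        push_cast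
        rw [Real.sqrt_mul (by norm_num), show (16 : ℝ) = 4 ^ 2 by norm_num, Real.sqrt_sq (by norm_num),
          Real.sqrt_eq_rpow, ← Real.rpow_natCast (N : ℝ) 3, ← Real.rpow_mul hN0.le]
        norm_num
      have h8 : Real.log ((16 * N ^ 3 : ℕ) : ℝ) ≤ 4 * L := by
        push_cast
        rw [Real.log_mul (by norm_num) (by positivity), Real.log_pow, ← hLd]
        have h9 : Real.log 16 ≤ L := by rw [hLd]; exact Real.log_le_log (by norm_num) hN16
        push_cast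
        linarith
      rw [h7]
      calc 2 * (4 * (N : ℝ) ^ (3 / 2 : ℝ)) * Real.log ((16 * N ^ 3 : ℕ) : ℝ) ≤
          2 * (4 * (N : ℝ) ^ (3 / 2 : ℝ)) * (4 * L) := by gcongr
        _ ≤ 2 * (4 * (N : ℝ) ^ (3 / 2 : ℝ)) * (4 * (N : ℝ) ^ (1 / 4 : ℝ)) := by gcongr
        _ = 32 * ((N : ℝ) ^ (3 / 2 : ℝ) * (N : ℝ) ^ (1 / 4 : ℝ)) := by ring
        _ = 32 * (N : ℝ) ^ (7 / 4 : ℝ) := by
            rw [← Real.rpow_add hN0]
            norm_num
        _ ≤ 40 * (N : ℝ) ^ (7 / 4 : ℝ) := by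
            apply mul_le_mul_of_nonneg_right (by norm_num) (by positivity)
    have h5 : 40 * (N : ℝ) ^ (7 / 4 : ℝ) ≤ η / 3 * (N : ℝ) ^ 2 := by
      have h6 : 3 * 40 / η ≤ (N : ℝ) ^ (1 / 4 : ℝ) := by
        have h7 : ((3 * 40) / η) ^ 4 ≤ (N : ℝ) := by linarith
        calc 3 * 40 / η = (((3 * 40) / η) ^ 4) ^ (1 / 4 : ℝ) := by
              rw [← Real.rpow_natCast, ← Real.rpow_mul (by positivity)]
              norm_num
          _ ≤ (N : ℝ) ^ (1 / 4 : ℝ) := Real.rpow_le_rpow (by positivity) h7 (by norm_num)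
      rw [div_le_iff₀ hη] at h6
      have h7 : (N : ℝ) ^ 2 = (N : ℝ) ^ (1 / 4 : ℝ) * (N : ℝ) ^ (7 / 4 : ℝ) := by
        rw [← Real.rpow_add hN0, ← Real.rpow_natCast]
        norm_num
      rw [h7]
      have h8 : 0 ≤ (N : ℝ) ^ (7 / 4 : ℝ) := by positivity
      have h9 := mul_le_mul_of_nonneg_right h6 h8
      calc 40 * (N : ℝ) ^ (7 / 4 : ℝ) = (3 * 40 * (N : ℝ) ^ (7 / 4 : ℝ)) / 3 := by ring
        _ ≤ ((N : ℝ) ^ (1 / 4 : ℝ) * η * (N : ℝ) ^ (7 / 4 : ℝ)) / 3 := by linarith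
        _ = _ := by ring
    have h6 : 6 * (N : ℝ) ^ 2 / L ≤ η / 3 * (N : ℝ) ^ 2 := by
      rw [div_le_iff₀ hL0]
      have h7 : η / 3 * (N : ℝ) ^ 2 * L = (η * L) * ((N : ℝ) ^ 2 / 3) := by ring
      rw [h7]
      have h8 := mul_le_mul_of_nonneg_right hLη (by positivity : 0 ≤ (N : ℝ) ^ 2 / 3)
      linarith
    -- from `θ` to the number of primes
    have h7 : ∑ k ∈ Ioc a b, th k ≤ (Pr a b).card * ((1 + η) * (3 * L)) := by
      have h8 : ∑ k ∈ Ioc a b, th k = ∑ k ∈ Pr a b, Real.log k := by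
        rw [Pr, sum_filter]
        apply sum_congr rfl
        intro k _
        unfold th
        by_cases hk : k.Prime
        · simp only [if_pos hk]
        · simp only [if_neg hk]
      rw [h8, ← nsmul_eq_mul]
      apply sum_le_card_nsmul
      intro k hk
      rw [Pr, mem_filter, mem_Ioc] at hk
      have hk0 : (0 : ℝ) < k := by exact_mod_cast hk.2.pos
      have h9 : (k : ℝ) ≤ 16 * (N : ℝ) ^ 3 := by
        have : k ≤ 16 * N ^ 3 := by omega
        exact_mod_cast this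
      have h10 : Real.log k ≤ Real.log 16 + 3 * L := by
        refine (Real.log_le_log hk0 h9).trans (le_of_eq ?_)
        rw [Real.log_mul (by norm_num) (by positivity), Real.log_pow, ← hLd]
        push_cast
        ring
      have h11 : Real.log 16 ≤ 15 := by
        have := Real.log_le_sub_one_of_pos (by norm_num : (0 : ℝ) < 16)
        linarith
      have h12 : (1 + η) * (3 * L) = 3 * L + 3 * (η * L) := by ring
      rw [h12]
      linarith
    rw [sum_sub_distrib] at h4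
    linarith

end Pool.Agent.V5helper54.CB
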