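import Pool.Agent.V5helper54.CS.Inj
import Pool.Agent.V5helper54.CB.Pnt

/-! # Primes in dense families of intervals between consecutive cubes and most vectors of differences -/

set_option autoImplicit false

namespace Pool.Agent.V5helper54.CB

open Finset Filter
open Pool.Agent.H373R2.T7
open Pool.Agent.Y877.SX
open Pool.Agent.V5helper54.CS (inj_all)

/-- the cube intervals are disjoint -/
lemma cube_unique {n n' a : ℕ} (h1 : n ^ 3 < a) (h2 : a < (n + 1) ^ 3) (h3 : n' ^ 3 < a) (h4 : a < (n' + 1) ^ 3) : n = n' := by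
  rcases lt_trichotomy n n' with h | h | h
  · have h5 : (n + 1) ^ 3 ≤ n' ^ 3 := Nat.pow_le_pow_left h 3
    omega
  · exact h
  · have h5 : (n' + 1) ^ 3 ≤ n ^ 3 := Nat.pow_le_pow_left h 3
    omega

lemma cube16 {N n : ℕ} (hN : 16 ≤ N) (hn2 : n ≤ 2 * N) : (n + 1) ^ 3 ≤ 16 * N ^ 3 := by
  have h4 : 4 * (n + 1) ≤ 9 * N := by omega
  have h5 : (4 * (n + 1)) ^ 3 ≤ (9 * N) ^ 3 := Nat.pow_le_pow_left h4 3
  rw [mul_pow, mul_pow] at h5
  norm_num at h5
  omega

/-- the change of the logarithm -/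
lemma log_change (k : ℕ) (ε a b c : ℝ) (hε : 0 < ε) (hε1 : ε ≤ 1) (ha : 0 < a) (hc : 0 < c)
    (hb : b ≤ (1 + ε / (4 * (k + 1))) * a) (hb0 : 0 < b) (S : ℝ) (hS : 0 ≤ S) :
    (1 - ε) * (S / (c * a) ^ k) ≤ (1 - ε / 2) * (S / (c * b) ^ k) := by
  obtain ⟨δ, hδd⟩ : ∃ δ, δ = ε / (4 * ((k : ℝ) + 1)) := ⟨_, rfl⟩
  rw [← hδd] at hb
  have hk0 : (0 : ℝ) ≤ k := Nat.cast_nonneg k
  have hδ : 0 < δ := by rw [hδd]; positivity
  have hkδ : k * δ ≤ ε / 4 := by
    rw [hδd, ← mul_div_assoc, div_le_div_iff₀ (by positivity) (by norm_num)]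
    nlinarith
  have hδ1 : δ ≤ 1 / 4 := by
    rw [hδd, div_le_div_iff₀ (by positivity) (by norm_num)]
    nlinarith
  have h1 : (1 + δ) ^ k * (1 - ε / 4) ≤ 1 := by
    have h2 := one_add_mul_le_pow (a := -δ) (by linarith) k
    have h3 : 1 - ε / 4 ≤ (1 + -δ) ^ k := by linarith
    calc (1 + δ) ^ k * (1 - ε / 4) ≤ (1 + δ) ^ k * (1 + -δ) ^ k := mul_le_mul_of_nonneg_left h3 (by positivity)
      _ = ((1 + δ) * (1 + -δ)) ^ k := (mul_pow _ _ _).symm
      _ ≤ 1 := pow_le_one₀ (mul_nonneg (by linarith) (by linarith)) (by nlinarith)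
  have h2 : (1 - ε) * (1 + δ) ^ k ≤ 1 - ε / 2 := by
    have h3 : (1 - ε) ≤ (1 - ε / 2) * (1 - ε / 4) := by nlinarith
    calc (1 - ε) * (1 + δ) ^ k ≤ ((1 - ε / 2) * (1 - ε / 4)) * (1 + δ) ^ k := mul_le_mul_of_nonneg_right h3 (by positivity)
      _ = (1 - ε / 2) * ((1 + δ) ^ k * (1 - ε / 4)) := by ring
      _ ≤ (1 - ε / 2) * 1 := mul_le_mul_of_nonneg_left h1 (by linarith)
      _ = _ := mul_one _
  have h3 : S / (c * a) ^ k ≤ (1 + δ) ^ k * (S / (c * b) ^ k) := by
    rw [← mul_div_assoc, div_le_div_iff₀ (by positivity) (by positivity)]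
    have h4 : (c * b) ^ k ≤ (1 + δ) ^ k * (c * a) ^ k := by
      rw [← mul_pow]
      apply pow_le_pow_left₀ (by positivity)
      calc c * b ≤ c * ((1 + δ) * a) := mul_le_mul_of_nonneg_left hb hc.le
        _ = _ := by ring
    calc S * (c * b) ^ k ≤ S * ((1 + δ) ^ k * (c * a) ^ k) := mul_le_mul_of_nonneg_left h4 hS
      _ = _ := by ring
  have h0 : 0 ≤ S / (c * b) ^ k := by positivity
  calc (1 - ε) * (S / (c * a) ^ k) ≤ (1 - ε) * ((1 + δ) ^ k * (S / (c * b) ^ k)) :=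
        mul_le_mul_of_nonneg_left h3 (by linarith)
    _ = ((1 - ε) * (1 + δ) ^ k) * (S / (c * b) ^ k) := by ring
    _ ≤ _ := mul_le_mul_of_nonneg_right h2 h0

open Classical in
/-- dense sets of primes in the initial parts of the cube intervals -/
theorem cubes1 (k A : ℕ) (ε : ℝ) (hε : 0 < ε) (hε1 : ε ≤ 1) : ∃ K₀ : ℕ, ∀ K₁ : ℕ, ∃ D N₀ : ℕ, ∀ N : ℕ, N₀ ≤ N →
    ∀ y : ℕ, K₀ * Real.log (Real.log N) ≤ y → y ≤ K₁ * Real.log (Real.log N) →
    ∀ Z : ℕ, Z ≤ N ^ 2 → ∀ w G : Fin k → ℕ, (∀ i, primorial y * (w i + G i) ≤ Z ∧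
      (N : ℝ) * Real.log N ^ D ≤ primorial y * G i) →
    ∀ c : Fin k → ℕ → ℕ, (∀ i n, primorial y * c i n ≤ Z) →
    ∀ S : ℕ → Finset ℕ, (∀ n, ∀ p ∈ S n, p.Prime ∧ n ^ 3 < p ∧ p + 2 * Z < (n + 1) ^ 3) →
      (N : ℝ) ^ 3 / Real.log N ^ A ≤ ∑ n ∈ Ioc N (2 * N), ((S n).card : ℝ) →
      (((Fintype.piFinset fun i => Ioc (w i) (w i + G i)).filter (fun m =>
        ∑ n ∈ Ioc N (2 * N), (((S n).filter (fun p => ∀ i, (p + primorial y * (c i n + m i)).Prime)).card : ℝ) <
        (1 - ε) * ((∑ n ∈ Ioc N (2 * N), ((S n).card : ℝ)) / (Vz y * (3 * Real.log N)) ^ k))).card : ℝ) ≤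
      ε * ∏ i, (G i : ℝ) := by
  obtain ⟨K0, hK0⟩ := inj_all (α := Σ _ : ℕ, ℕ) k (A + 1) (ε / 2) (by linarith) (by linarith)
  refine ⟨2 * K0, fun K1 => ?_⟩
  obtain ⟨D, x0, hx0⟩ := hK0 K1
  obtain ⟨n1, hn1⟩ := ev_L' (16 + (K1 : ℝ) + 4 * (k + 1) / ε)
  refine ⟨2 * D + 1, max x0 (max n1 16), fun N hN y hy1 hy2 Z hZ w G hwG c hc S hS hSc => ?_⟩
  have b1 : x0 ≤ N := le_trans (le_max_left _ _) hN
  have b2 : n1 ≤ N := le_trans (le_trans (le_max_left _ _) (le_max_right _ _)) hN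
  have b3 : 16 ≤ N := le_trans (le_trans (le_max_right _ _) (le_max_right _ _)) hN
  have hL := hn1 N b2
  have hN16 : (16 : ℝ) ≤ N := by exact_mod_cast b3
  have hN0 : (0 : ℝ) < N := by linarith
  obtain ⟨L, hLd⟩ : ∃ L, L = Real.log (N : ℝ) := ⟨_, rfl⟩
  rw [← hLd] at hL hy1 hy2 hwG hSc ⊢
  have e1 : 0 < 4 * ((k : ℝ) + 1) / ε := by positivity
  have hK10 : (0 : ℝ) ≤ K1 := Nat.cast_nonneg _
  have hL16 : 16 ≤ L := by linarith
  have hLK : (K1 : ℝ) ≤ L := by linarith
  have hLk : 4 * ((k : ℝ) + 1) / ε ≤ L := by linarith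
  have hL0 : 0 < L := by linarith
  obtain ⟨x, hxd⟩ : ∃ x, x = 16 * N ^ 3 := ⟨_, rfl⟩
  have hNN3 : N ≤ N ^ 3 := Nat.le_self_pow (by norm_num) N
  have hNx : N ≤ x := by omega
  have hxr : (x : ℝ) = 16 * (N : ℝ) ^ 3 := by rw [hxd]; push_cast; ring
  have hlx : Real.log x = Real.log 16 + 3 * L := by
    rw [hxr, Real.log_mul (by norm_num) (by positivity), Real.log_pow, ← hLd]
    push_cast
    ring
  have hl16 : Real.log 16 ≤ 3 := by
    have h1 : Real.log 16 = 4 * Real.log 2 := by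
      rw [show (16 : ℝ) = 2 ^ 4 by norm_num, Real.log_pow]
      norm_num
    have h2 := Real.log_two_lt_d9
    rw [h1]
    linarith
  have hl160 : 0 < Real.log 16 := Real.log_pos (by norm_num)
  have hlx1 : L ≤ Real.log x := by rw [hlx]; linarith
  have hlx2 : Real.log x ≤ 4 * L := by rw [hlx]; linarith
  have hll : Real.log (Real.log x) ≤ 2 * Real.log L := by
    have h1 : Real.log (Real.log x) ≤ Real.log (4 * L) := Real.log_le_log (by linarith) hlx2
    rw [Real.log_mul (by norm_num) hL0.ne'] at h1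
    have h2 : Real.log 4 ≤ Real.log L := Real.log_le_log (by norm_num) (by linarith)
    linarith
  have hll2 : Real.log L ≤ Real.log (Real.log x) := Real.log_le_log hL0 hlx1
  have hyN : y < N := by
    have h1 : (y : ℝ) < N := by
      have h2 : Real.log L ≤ L := (Real.log_le_sub_one_of_pos hL0).trans (by linarith)
      have h3 : (y : ℝ) ≤ L * L := hy2.trans (mul_le_mul hLK h2 (Real.log_nonneg (by linarith)) hL0.le)
      have h4 : L * L < N := by
        have h5 : (N : ℝ) = Real.exp L := by rw [hLd, Real.exp_log hN0]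
        rw [h5]
        have h6 := Real.add_one_lt_exp (x := L / 4) (by positivity)
        have h7 : Real.exp L = Real.exp (L / 4) ^ 4 := by
          rw [← Real.exp_nat_mul]
          congr 1
          push_cast
          ring
        rw [h7]
        have h8 : L / 4 < Real.exp (L / 4) := by linarith
        calc L * L ≤ L ^ 2 * (L ^ 2 / 256) := by
              have h9 : 1 ≤ L ^ 2 / 256 := by
                rw [le_div_iff₀ (by norm_num)]
                nlinarith
              nlinarith [sq_nonneg L]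
          _ = (L / 4) ^ 4 := by ring
          _ < Real.exp (L / 4) ^ 4 := pow_lt_pow_left₀ h8 (by positivity) (by norm_num)
      linarith
    exact_mod_cast h1
  obtain ⟨S', hS'⟩ : ∃ S' : Finset (Σ _ : ℕ, ℕ), S' = (Ioc N (2 * N)).sigma S := ⟨_, rfl⟩
  have hcardS : (S'.card : ℝ) = ∑ n ∈ Ioc N (2 * N), ((S n).card : ℝ) := by
    rw [hS', card_sigma]
    push_cast
    rfl
  have hmem : ∀ s ∈ S', N < s.1 ∧ s.1 ≤ 2 * N ∧ s.2.Prime ∧ s.1 ^ 3 < s.2 ∧ s.2 + 2 * Z < (s.1 + 1) ^ 3 := by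
    intro s hs
    rw [hS', mem_sigma, mem_Ioc] at hs
    obtain ⟨h1, h2, h3⟩ := hS s.1 s.2 hs.2
    exact ⟨hs.1.1, hs.1.2, h1, h2, h3⟩
  have hZN : Z ≤ N ^ 3 := hZ.trans (Nat.pow_le_pow_right (by omega) (by norm_num))
  have key := hx0 x (by omega) y (by
      have h1 : (K0 : ℝ) * Real.log (Real.log x) ≤ K0 * (2 * Real.log L) := mul_le_mul_of_nonneg_left hll (Nat.cast_nonneg _)
      have h2 : ((2 * K0 : ℕ) : ℝ) * Real.log L = K0 * (2 * Real.log L) := by push_cast; ring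
      linarith) (by
      have h1 : (K1 : ℝ) * Real.log L ≤ K1 * Real.log (Real.log x) := mul_le_mul_of_nonneg_left hll2 (Nat.cast_nonneg _)
      linarith) S' (fun i s => s.2 + primorial y * c i s.1) (by
      intro i s hs s' hs' hss
      obtain ⟨g1, g2, g3, g4, g5⟩ := hmem s hs
      obtain ⟨g1', g2', g3', g4', g5'⟩ := hmem s' hs'
      have hci := hc i s.1
      have hci' := hc i s'.1
      simp only at hss
      have h1 : s.1 = s'.1 := cube_unique (a := s.2 + primorial y * c i s.1) (by omega) (by omega) (by omega) (by omega)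
      rw [h1] at hss
      have h2 : s.2 = s'.2 := by omega
      exact Sigma.ext h1 (by rw [h2])) (by
      intro i s hs
      obtain ⟨g1, g2, g3, g4, g5⟩ := hmem s hs
      have hci := hc i s.1
      have h16 := cube16 b3 g2
      show 1 ≤ s.2 + primorial y * c i s.1 ∧ s.2 + primorial y * c i s.1 ≤ x
      omega) (by
      rw [hcardS, hxr]
      have h1 : (N : ℝ) ^ 3 ≤ (∑ n ∈ Ioc N (2 * N), ((S n).card : ℝ)) * L ^ A := by
        rwa [div_le_iff₀ (by positivity)] at hSc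
      have hs0 : 0 ≤ ∑ n ∈ Ioc N (2 * N), ((S n).card : ℝ) := sum_nonneg fun _ _ => Nat.cast_nonneg _
      calc 16 * (N : ℝ) ^ 3 ≤ L * ((∑ n ∈ Ioc N (2 * N), ((S n).card : ℝ)) * L ^ A) :=
            mul_le_mul hL16 h1 (by positivity) hL0.le
        _ = (∑ n ∈ Ioc N (2 * N), ((S n).card : ℝ)) * L ^ (A + 1) := by rw [pow_succ]; ring
        _ ≤ _ := mul_le_mul_of_nonneg_left (by
            have : L ^ (A + 1) ≤ Real.log x ^ (A + 1) := pow_le_pow_left₀ hL0.le hlx1 _
            rwa [hxr] at this) hs0) (by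
      intro i s hs q hq hqy hd
      obtain ⟨g1, g2, g3, g4, g5⟩ := hmem s hs
      have h2 : q ∣ primorial y := hq.dvd_primorial_iff.2 hqy
      have h3 : q ∣ s.2 := (Nat.dvd_add_left (h2.mul_right _)).1 hd
      have h4 : q = s.2 := (Nat.prime_dvd_prime_iff_eq hq g3).1 h3
      have h5 : N ^ 3 ≤ s.1 ^ 3 := Nat.pow_le_pow_left g1.le 3
      omega) w G (by
      intro i
      obtain ⟨h1, h2⟩ := hwG i
      refine ⟨by omega, le_trans ?_ h2⟩
      have h3 : (x : ℝ) ^ (1 / 3 : ℝ) ≤ 3 * N := by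
        rw [hxr]
        have g1 : 16 * (N : ℝ) ^ 3 ≤ (3 * (N : ℝ)) ^ 3 := by
          have : 0 ≤ (N : ℝ) ^ 3 := by positivity
          rw [mul_pow]
          linarith
        have g2 := Real.rpow_le_rpow (by positivity) g1 (by norm_num : (0 : ℝ) ≤ 1 / 3)
        have g3 : ((3 * (N : ℝ)) ^ 3) ^ (1 / 3 : ℝ) = 3 * N := by
          rw [← Real.rpow_natCast (3 * (N : ℝ)) 3, ← Real.rpow_mul (by positivity)]
          norm_num
        rwa [g3] at g2
      have h4 : Real.log x ^ D ≤ L ^ (2 * D) := by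
        rw [pow_mul]
        apply pow_le_pow_left₀ (by linarith)
        nlinarith
      calc (x : ℝ) ^ (1 / 3 : ℝ) * Real.log x ^ D ≤ (3 * N) * L ^ (2 * D) :=
            mul_le_mul h3 h4 (pow_nonneg (by linarith) _) (by positivity)
        _ ≤ (L * N) * L ^ (2 * D) := by
            apply mul_le_mul_of_nonneg_right _ (by positivity)
            apply mul_le_mul_of_nonneg_right _ hN0.le
            linarith
        _ = N * L ^ (2 * D + 1) := by rw [pow_succ]; ring)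
  have hG0 : (0 : ℝ) ≤ ∏ i, (G i : ℝ) := prod_nonneg fun _ _ => Nat.cast_nonneg _
  have hfin : ε / 2 * ∏ i, (G i : ℝ) ≤ ε * ∏ i, (G i : ℝ) := mul_le_mul_of_nonneg_right (by linarith) hG0
  refine le_trans ?_ (key.trans hfin)
  have hle : ((Fintype.piFinset fun i => Ioc (w i) (w i + G i)).filter (fun m =>
        ∑ n ∈ Ioc N (2 * N), (((S n).filter (fun p => ∀ i, (p + primorial y * (c i n + m i)).Prime)).card : ℝ) <
        (1 - ε) * ((∑ n ∈ Ioc N (2 * N), ((S n).card : ℝ)) / (Vz y * (3 * L)) ^ k))).card ≤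
      ((Fintype.piFinset fun i => Ioc (w i) (w i + G i)).filter (fun m =>
      ((S'.filter (fun s => ∀ i, ((fun (i : Fin k) (s : Σ _ : ℕ, ℕ) => s.2 + primorial y * c i s.1) i s +
        primorial y * m i).Prime)).card : ℝ) <
      (1 - ε / 2) * (S'.card / (Vz y * Real.log x) ^ k))).card := by
    apply card_le_card
    intro m hm
    rw [mem_filter] at hm ⊢
    refine ⟨hm.1, ?_⟩
    have h1 : ((S'.filter (fun s => ∀ i, ((fun (i : Fin k) (s : Σ _ : ℕ, ℕ) => s.2 + primorial y * c i s.1) i s +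
        primorial y * m i).Prime)).card : ℝ) =
        ∑ n ∈ Ioc N (2 * N), (((S n).filter (fun p => ∀ i, (p + primorial y * (c i n + m i)).Prime)).card : ℝ) := by
      have h2 : S'.filter (fun s => ∀ i, ((fun (i : Fin k) (s : Σ _ : ℕ, ℕ) => s.2 + primorial y * c i s.1) i s +
        primorial y * m i).Prime) = (Ioc N (2 * N)).sigma (fun n => (S n).filter (fun p => ∀ i, (p + primorial y * (c i n + m i)).Prime)) := by
        ext s
        rw [hS', mem_filter, mem_sigma, mem_sigma, mem_filter]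
        have h3 : (∀ i, ((fun (i : Fin k) (s : Σ _ : ℕ, ℕ) => s.2 + primorial y * c i s.1) i s + primorial y * m i).Prime) ↔
            ∀ i, (s.2 + primorial y * (c i s.1 + m i)).Prime := by
          apply forall_congr'
          intro i
          simp only
          rw [mul_add, ← add_assoc]
        rw [h3]
        tauto
      rw [h2, card_sigma]
      push_cast
      rfl
    rw [h1, hcardS]
    refine hm.2.trans_le ?_
    apply log_change k ε (3 * L) (Real.log x) (Vz y) hε hε1 (by positivity) (Vz_pos y) _ (by linarith)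
    · exact sum_nonneg fun _ _ => Nat.cast_nonneg _
    · rw [hlx]
      have h4 : (1 + ε / (4 * ((k : ℝ) + 1))) * (3 * L) = 3 * L + 3 * (ε / (4 * ((k : ℝ) + 1)) * L) := by ring
      rw [h4]
      have h5 : 1 ≤ ε / (4 * ((k : ℝ) + 1)) * L := by
        have h6 : ε / (4 * ((k : ℝ) + 1)) * (4 * ((k : ℝ) + 1) / ε) ≤ ε / (4 * ((k : ℝ) + 1)) * L :=
          mul_le_mul_of_nonneg_left hLk (by positivity)
        have h7 : ε / (4 * ((k : ℝ) + 1)) * (4 * ((k : ℝ) + 1) / ε) = 1 := by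
          field_simp
        rwa [h7] at h6
      linarith
  have hle' : (((Fintype.piFinset fun i => Ioc (w i) (w i + G i)).filter (fun m =>
        ∑ n ∈ Ioc N (2 * N), (((S n).filter (fun p => ∀ i, (p + primorial y * (c i n + m i)).Prime)).card : ℝ) <
        (1 - ε) * ((∑ n ∈ Ioc N (2 * N), ((S n).card : ℝ)) / (Vz y * (3 * L)) ^ k))).card : ℝ) ≤
      (((Fintype.piFinset fun i => Ioc (w i) (w i + G i)).filter (fun m =>
      ((S'.filter (fun s => ∀ i, ((fun (i : Fin k) (s : Σ _ : ℕ, ℕ) => s.2 + primorial y * c i s.1) i s +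
        primorial y * m i).Prime)).card : ℝ) <
      (1 - ε / 2) * (S'.card / (Vz y * Real.log x) ^ k))).card : ℝ) := by
    exact_mod_cast hle
  refine le_trans (le_of_eq ?_) (hle'.trans (le_of_eq ?_))
  · congr!
  · congr!

end Pool.Agent.V5helper54.CB
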