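import Pool.Agent.V5helper54.CB.Dense

/-! # Prime tuples with most vectors of differences in dense families of intervals between consecutive cubes -/

set_option autoImplicit false

namespace Pool.Agent.V5helper54.CB

open Finset Filter
open Pool.Agent.H373R2.T7
open Pool.Agent.Y877.SX

/-- the number of the primes `p` such that all `p + h_i` are prime and all lie between `n³` and `(n + 1)³` -/
def Tu {k : ℕ} (h : Fin k → ℕ) (n : ℕ) : ℕ :=
  ((Ioo (n ^ 3) ((n + 1) ^ 3)).filter (fun p => p.Prime ∧ ∀ i, (p + h i).Prime ∧ p + h i < (n + 1) ^ 3)).card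

open Classical in
theorem cubes2 (k A : ℕ) (ε : ℝ) (hε : 0 < ε) (hε1 : ε ≤ 1) : ∃ K₀ : ℕ, ∀ K₁ : ℕ, ∃ D N₀ : ℕ, ∀ N : ℕ, N₀ ≤ N →
    ∀ y : ℕ, K₀ * Real.log (Real.log N) ≤ y → y ≤ K₁ * Real.log (Real.log N) →
    ∀ Z : ℕ, Z ≤ N ^ 2 → ∀ w G : Fin k → ℕ, (∀ i, primorial y * (w i + G i) ≤ Z ∧
      (N : ℝ) * Real.log N ^ D ≤ primorial y * G i) →
    ∀ c : Fin k → ℕ → ℕ, (∀ i n, primorial y * c i n ≤ Z) →
    (∀ S : ℕ → Finset ℕ, (∀ n, ∀ p ∈ S n, p.Prime ∧ n ^ 3 < p ∧ p + 2 * Z < (n + 1) ^ 3) →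
      (N : ℝ) ^ 3 / Real.log N ^ A ≤ ∑ n ∈ Ioc N (2 * N), ((S n).card : ℝ) →
      (((Fintype.piFinset fun i => Ioc (w i) (w i + G i)).filter (fun m =>
        ∑ n ∈ Ioc N (2 * N), (((S n).filter (fun p => ∀ i, (p + primorial y * (c i n + m i)).Prime)).card : ℝ) <
        (1 - ε) * ((∑ n ∈ Ioc N (2 * N), ((S n).card : ℝ)) / (Vz y * (3 * Real.log N)) ^ k))).card : ℝ) ≤
      ε * ∏ i, (G i : ℝ)) ∧
    ∀ B : Finset ℕ, B ⊆ Ioc N (2 * N) → (N : ℝ) / Real.log N ^ A ≤ B.card →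
      (((Fintype.piFinset fun i => Ioc (w i) (w i + G i)).filter (fun m =>
        ∑ n ∈ B, (Tu (fun i => primorial y * (c i n + m i)) n : ℝ) <
        (1 - ε) * ((∑ n ∈ B, (3 * (n : ℝ) ^ 2 - 2 * Z)) / (Vz y ^ k * (3 * Real.log N) ^ (k + 1))))).card : ℝ) ≤
      ε * ∏ i, (G i : ℝ) := by
  obtain ⟨K₀, hK₀⟩ := cubes1 k (A + 2) (ε / 2) (by linarith) (by linarith)
  refine ⟨K₀, fun K₁ => ?_⟩
  obtain ⟨D, N1, hN1⟩ := hK₀ K₁
  obtain ⟨η, hηd⟩ : ∃ η, η = ε / 8 := ⟨_, rfl⟩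
  have hη : 0 < η := by rw [hηd]; positivity
  obtain ⟨N2, hN2⟩ := pnt_most (A + 1) η hη
  obtain ⟨n3, hn3⟩ := ev_L' (16 + 12 / η)
  refine ⟨D, max N1 (max N2 (max n3 16)), fun N hN y hy1 hy2 Z hZ w G hwG c hc => ?_⟩
  have b1 : N1 ≤ N := le_trans (le_max_left _ _) hN
  have b2 : N2 ≤ N := le_trans (le_trans (le_max_left _ _) (le_max_right _ _)) hN
  have b3 : n3 ≤ N := le_trans (le_trans (le_trans (le_max_left _ _) (le_max_right _ _)) (le_max_right _ _)) hN
  have b4 : 16 ≤ N := le_trans (le_trans (le_trans (le_max_right _ _) (le_max_right _ _)) (le_max_right _ _)) hN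
  have main := hN1 N b1 y hy1 hy2 Z hZ w G hwG c hc
  obtain ⟨E, hEc, hE⟩ := hN2 N b2
  have hL := hn3 N b3
  have hN16 : (16 : ℝ) ≤ N := by exact_mod_cast b4
  have hN0 : (0 : ℝ) < N := by linarith
  obtain ⟨L, hLd⟩ : ∃ L, L = Real.log (N : ℝ) := ⟨_, rfl⟩
  rw [← hLd] at hL main hEc hE ⊢
  have e1 : 0 < 12 / η := by positivity
  have hL16 : 16 ≤ L := by linarith
  have hL0 : 0 < L := by linarith
  have hLη : 12 ≤ η * L := by
    have h1 : η * (12 / η) ≤ η * L := mul_le_mul_of_nonneg_left (by linarith) hη.le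
    rwa [mul_div_cancel₀ _ hη.ne'] at h1
  have hG0 : (0 : ℝ) ≤ ∏ i, (G i : ℝ) := prod_nonneg fun _ _ => Nat.cast_nonneg _
  have hεG : ε / 2 * ∏ i, (G i : ℝ) ≤ ε * ∏ i, (G i : ℝ) := mul_le_mul_of_nonneg_right (by linarith) hG0
  have hVy := Vz_pos y
  refine ⟨fun S hS hSc => ?_, fun B hB hBc => ?_⟩
  · -- the general statement
    have h1 := main S hS (by
      refine le_trans ?_ hSc
      apply div_le_div_of_nonneg_left (by positivity) (by positivity)
      exact pow_le_pow_right₀ (by linarith) (by omega))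
    refine le_trans ?_ (h1.trans hεG)
    have h2 : ((Fintype.piFinset fun i => Ioc (w i) (w i + G i)).filter (fun m =>
        ∑ n ∈ Ioc N (2 * N), (((S n).filter (fun p => ∀ i, (p + primorial y * (c i n + m i)).Prime)).card : ℝ) <
        (1 - ε) * ((∑ n ∈ Ioc N (2 * N), ((S n).card : ℝ)) / (Vz y * (3 * L)) ^ k))) ⊆
      ((Fintype.piFinset fun i => Ioc (w i) (w i + G i)).filter (fun m =>
        ∑ n ∈ Ioc N (2 * N), (((S n).filter (fun p => ∀ i, (p + primorial y * (c i n + m i)).Prime)).card : ℝ) <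
        (1 - ε / 2) * ((∑ n ∈ Ioc N (2 * N), ((S n).card : ℝ)) / (Vz y * (3 * L)) ^ k))) := by
      intro m hm
      rw [mem_filter] at hm ⊢
      refine ⟨hm.1, hm.2.trans_le ?_⟩
      apply mul_le_mul_of_nonneg_right (by linarith)
      apply div_nonneg _ (by positivity)
      exact sum_nonneg fun _ _ => Nat.cast_nonneg _
    exact_mod_cast card_le_card h2
  -- the sets of intervals
  obtain ⟨S, hSd⟩ : ∃ S : ℕ → Finset ℕ, S = fun n => if n ∈ B then Pr (n ^ 3) ((n + 1) ^ 3 - 1 - 2 * Z) else ∅ := ⟨_, rfl⟩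
  have hcube : ∀ n : ℕ, (n + 1) ^ 3 = n ^ 3 + 3 * n ^ 2 + 3 * n + 1 := fun n => by ring
  have hBn : ∀ n ∈ B, N < n ∧ n ≤ 2 * N ∧ N ^ 2 ≤ n ^ 2 := by
    intro n hn
    have h1 := mem_Ioc.1 (hB hn)
    exact ⟨h1.1, h1.2, Nat.pow_le_pow_left h1.1.le 2⟩
  have hSn : ∀ n, ∀ p ∈ S n, n ∈ B ∧ p.Prime ∧ n ^ 3 < p ∧ p + 2 * Z < (n + 1) ^ 3 := by
    intro n p hp
    rw [hSd] at hp
    simp only at hp
    split_ifs at hp with hn
    · rw [Pr, mem_filter, mem_Ioc] at hp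
      obtain ⟨h1, h2, h3⟩ := hBn n hn
      have h4 := hcube n
      exact ⟨hn, hp.2, hp.1.1, by omega⟩
    · exact absurd hp (notMem_empty p)
  obtain ⟨X, hXd⟩ : ∃ X : ℝ, X = ∑ n ∈ B, (3 * (n : ℝ) ^ 2 - 2 * Z) := ⟨_, rfl⟩
  have hZr : (Z : ℝ) ≤ (N : ℝ) ^ 2 := by exact_mod_cast hZ
  have hXn : ∀ n ∈ B, (N : ℝ) ^ 2 ≤ 3 * (n : ℝ) ^ 2 - 2 * Z ∧ 3 * (n : ℝ) ^ 2 - 2 * Z ≤ 12 * (N : ℝ) ^ 2 := by
    intro n hn
    obtain ⟨h1, h2, h3⟩ := hBn n hn
    have h4 : (N : ℝ) ^ 2 ≤ (n : ℝ) ^ 2 := by exact_mod_cast h3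
    have h5 : (n : ℝ) ≤ 2 * N := by exact_mod_cast h2
    have h6 : (n : ℝ) ^ 2 ≤ (2 * (N : ℝ)) ^ 2 := pow_le_pow_left₀ (Nat.cast_nonneg _) h5 2
    have h7 : (2 * (N : ℝ)) ^ 2 = 4 * (N : ℝ) ^ 2 := by ring
    rw [h7] at h6
    have h8 : (0 : ℝ) ≤ Z := Nat.cast_nonneg _
    constructor <;> linarith
  have hXB : B.card * (N : ℝ) ^ 2 ≤ X := by
    rw [hXd, ← nsmul_eq_mul]
    exact card_nsmul_le_sum _ _ _ fun n hn => (hXn n hn).1
  have hX0 : 0 ≤ X := le_trans (by positivity) hXB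
  -- the number of primes
  have hsum : (1 - 2 * η) * X ≤ (∑ n ∈ Ioc N (2 * N), ((S n).card : ℝ)) * ((1 + η) * (3 * L)) := by
    have h1 : ∑ n ∈ B, ((S n).card : ℝ) ≤ ∑ n ∈ Ioc N (2 * N), ((S n).card : ℝ) :=
      sum_le_sum_of_subset_of_nonneg hB fun _ _ _ => Nat.cast_nonneg _
    have h2 : ∀ n ∈ B, (3 * (n : ℝ) ^ 2 - 2 * Z) - η * (N : ℝ) ^ 2 - (if n ∈ E then 12 * (N : ℝ) ^ 2 else 0) ≤
        (S n).card * ((1 + η) * (3 * L)) := by
      intro n hn
      obtain ⟨g1, g2, g3⟩ := hBn n hn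
      have hηN : 0 ≤ η * (N : ℝ) ^ 2 := by positivity
      by_cases hnE : n ∈ E
      · rw [if_pos hnE]
        have h3 : (0 : ℝ) ≤ (S n).card * ((1 + η) * (3 * L)) := by positivity
        have h4 := (hXn n hn).2
        linarith
      · rw [if_neg hnE, sub_zero]
        have h4 := hcube n
        have h3 := hE n g1 g2 hnE (n ^ 3) ((n + 1) ^ 3 - 1 - 2 * Z) le_rfl (by omega) (by omega)
        have h5 : S n = Pr (n ^ 3) ((n + 1) ^ 3 - 1 - 2 * Z) := by
          rw [hSd]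
          simp only [if_pos hn]
        rw [h5]
        refine le_trans ?_ h3
        have h6 : (n + 1) ^ 3 - 1 - 2 * Z + 2 * Z = n ^ 3 + 3 * n ^ 2 + 3 * n := by omega
        have h7 : (((n + 1) ^ 3 - 1 - 2 * Z : ℕ) : ℝ) + 2 * Z = ((n ^ 3 : ℕ) : ℝ) + 3 * (n : ℝ) ^ 2 + 3 * n := by
          exact_mod_cast h6
        have h8 : (0 : ℝ) ≤ n := Nat.cast_nonneg _
        linarith
    have h3 := sum_le_sum h2
    rw [← sum_mul, sum_sub_distrib, sum_sub_distrib, ← hXd, sum_const, nsmul_eq_mul] at h3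
    have h4 : ∑ n ∈ B, (if n ∈ E then 12 * (N : ℝ) ^ 2 else 0) ≤ η * X := by
      rw [← sum_filter, sum_const, nsmul_eq_mul]
      have h5 : ((B.filter (fun n => n ∈ E)).card : ℝ) ≤ E.card := by
        have : (B.filter (fun n => n ∈ E)).card ≤ E.card := by
          apply card_le_card
          intro n hn
          exact (mem_filter.1 hn).2
        exact_mod_cast this
      have h6 : (E.card : ℝ) ≤ B.card / L := by
        refine hEc.trans ?_
        rw [le_div_iff₀ hL0]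
        refine le_trans (le_of_eq ?_) hBc
        rw [pow_succ]
        field_simp
      have h7 : ((B.filter (fun n => n ∈ E)).card : ℝ) * (12 * (N : ℝ) ^ 2) ≤ B.card / L * (12 * (N : ℝ) ^ 2) :=
        mul_le_mul_of_nonneg_right (h5.trans h6) (by positivity)
      refine h7.trans ?_
      have h8 : B.card / L * (12 * (N : ℝ) ^ 2) = 12 * (B.card * (N : ℝ) ^ 2) / L := by ring
      rw [h8, div_le_iff₀ hL0]
      calc 12 * (B.card * (N : ℝ) ^ 2) ≤ 12 * X := by linarith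
        _ ≤ (η * L) * X := mul_le_mul_of_nonneg_right hLη hX0
        _ = η * X * L := by ring
    have h5 : (B.card : ℝ) * (η * (N : ℝ) ^ 2) ≤ η * X := by
      calc (B.card : ℝ) * (η * (N : ℝ) ^ 2) = η * (B.card * (N : ℝ) ^ 2) := by ring
        _ ≤ η * X := mul_le_mul_of_nonneg_left hXB hη.le
    have h6 : (∑ n ∈ B, ((S n).card : ℝ)) * ((1 + η) * (3 * L)) ≤
        (∑ n ∈ Ioc N (2 * N), ((S n).card : ℝ)) * ((1 + η) * (3 * L)) :=
      mul_le_mul_of_nonneg_right h1 (by positivity)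
    have h7 : (1 - 2 * η) * X = X - η * X - η * X := by ring
    rw [h7]
    linarith
  have hsum2 : (1 - ε / 2) * (X / (3 * L)) ≤ ∑ n ∈ Ioc N (2 * N), ((S n).card : ℝ) := by
    have h1 : (1 - ε / 2) * (1 + η) ≤ 1 - 2 * η := by
      rw [hηd]
      nlinarith
    rw [← mul_div_assoc, div_le_iff₀ (by positivity)]
    have h2 : (1 + η) * ((1 - ε / 2) * X) ≤ (1 + η) * ((∑ n ∈ Ioc N (2 * N), ((S n).card : ℝ)) * (3 * L)) := by
      calc (1 + η) * ((1 - ε / 2) * X) = ((1 - ε / 2) * (1 + η)) * X := by ring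
        _ ≤ (1 - 2 * η) * X := mul_le_mul_of_nonneg_right h1 hX0
        _ ≤ _ := hsum
        _ = _ := by ring
    exact le_of_mul_le_mul_left h2 (by linarith)
  have hdens : (N : ℝ) ^ 3 / L ^ (A + 2) ≤ ∑ n ∈ Ioc N (2 * N), ((S n).card : ℝ) := by
    refine le_trans ?_ hsum2
    have h1 : (N : ℝ) / L ^ A * (N : ℝ) ^ 2 ≤ X := (mul_le_mul_of_nonneg_right hBc (by positivity)).trans hXB
    have h2 : (1 / 2 : ℝ) ≤ 1 - ε / 2 := by linarith
    calc (N : ℝ) ^ 3 / L ^ (A + 2) = ((N : ℝ) / L ^ A * (N : ℝ) ^ 2) * (1 / L ^ 2) := by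
          rw [pow_add]
          field_simp
      _ ≤ X * (1 / L ^ 2) := mul_le_mul_of_nonneg_right h1 (by positivity)
      _ ≤ X * (1 / (6 * L)) := by
          apply mul_le_mul_of_nonneg_left _ hX0
          apply one_div_le_one_div_of_le (by positivity)
          nlinarith
      _ = 1 / 2 * (X / (3 * L)) := by
          field_simp
          ring
      _ ≤ _ := mul_le_mul_of_nonneg_right h2 (by positivity)
  have h1 := main S (fun n p hp => (hSn n p hp).2) hdens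
  refine le_trans ?_ (h1.trans hεG)
  have hsub : ((Fintype.piFinset fun i => Ioc (w i) (w i + G i)).filter (fun m =>
        ∑ n ∈ B, (Tu (fun i => primorial y * (c i n + m i)) n : ℝ) <
        (1 - ε) * ((∑ n ∈ B, (3 * (n : ℝ) ^ 2 - 2 * Z)) / (Vz y ^ k * (3 * L) ^ (k + 1))))) ⊆
      ((Fintype.piFinset fun i => Ioc (w i) (w i + G i)).filter (fun m =>
        ∑ n ∈ Ioc N (2 * N), (((S n).filter (fun p => ∀ i, (p + primorial y * (c i n + m i)).Prime)).card : ℝ) <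
        (1 - ε / 2) * ((∑ n ∈ Ioc N (2 * N), ((S n).card : ℝ)) / (Vz y * (3 * L)) ^ k))) := by
    intro m hm
    rw [mem_filter] at hm ⊢
    refine ⟨hm.1, ?_⟩
    have hmi : ∀ i, primorial y * m i ≤ Z := by
      intro i
      have h2 := Fintype.mem_piFinset.1 hm.1 i
      rw [mem_Ioc] at h2
      exact (Nat.mul_le_mul_left _ h2.2).trans (hwG i).1
    have h2 : ∑ n ∈ Ioc N (2 * N), (((S n).filter (fun p => ∀ i, (p + primorial y * (c i n + m i)).Prime)).card : ℝ) ≤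
        ∑ n ∈ B, (Tu (fun i => primorial y * (c i n + m i)) n : ℝ) := by
      have h3 : ∑ n ∈ Ioc N (2 * N), (((S n).filter (fun p => ∀ i, (p + primorial y * (c i n + m i)).Prime)).card : ℝ) =
          ∑ n ∈ B, (((S n).filter (fun p => ∀ i, (p + primorial y * (c i n + m i)).Prime)).card : ℝ) := by
        symm
        apply sum_subset hB
        intro n _ hnB
        have h4 : S n = ∅ := by
          rw [hSd]
          simp only [if_neg hnB]
        rw [h4]
        simp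
      rw [h3]
      apply sum_le_sum
      intro n hn
      have h4 : ((S n).filter (fun p => ∀ i, (p + primorial y * (c i n + m i)).Prime)).card ≤
          Tu (fun i => primorial y * (c i n + m i)) n := by
        unfold Tu
        apply card_le_card
        intro p hp
        rw [mem_filter] at hp
        obtain ⟨_, h5, h6, h7⟩ := hSn n p hp.1
        rw [mem_filter, mem_Ioo]
        refine ⟨⟨h6, by omega⟩, h5, fun i => ⟨hp.2 i, ?_⟩⟩
        have h8 := hc i n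
        have h9 := hmi i
        show p + primorial y * (c i n + m i) < (n + 1) ^ 3
        rw [mul_add]
        omega
      exact_mod_cast h4
    refine h2.trans_lt (hm.2.trans_le ?_)
    rw [← hXd]
    calc (1 - ε) * (X / (Vz y ^ k * (3 * L) ^ (k + 1))) ≤
        ((1 - ε / 2) * (1 - ε / 2)) * (X / (Vz y ^ k * (3 * L) ^ (k + 1))) := by
          apply mul_le_mul_of_nonneg_right _ (by positivity)
          nlinarith
      _ = (1 - ε / 2) * (((1 - ε / 2) * (X / (3 * L))) / (Vz y * (3 * L)) ^ k) := by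
          rw [mul_pow (Vz y) (3 * L) k, pow_succ (3 * L) k]
          field_simp
      _ ≤ _ := by
          apply mul_le_mul_of_nonneg_left _ (by linarith)
          exact div_le_div_of_nonneg_right hsum2 (by positivity)
  exact_mod_cast card_le_card hsub

end Pool.Agent.V5helper54.CB
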