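import Pool.Agent.V5helper50.PW.Blk

/-! # Blocks with few primes, and the first moment of the number of prime pairs in a window of differences -/

set_option autoImplicit false

namespace Pool.Agent.V5helper54.CB

open Finset Filter
open Pool.Agent.V5helper50.PW (SS bad BL blocks blocks_le mem_SS mem_bad PI_zero log_le_rpow)

/-- the primes in `(a, b]` -/
def Pr (a b : ℕ) : Finset ℕ := (Ioc a b).filter Nat.Prime

lemma Pr_eq (a b : ℕ) : Pr a b = SS 0 a b := by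
  ext p
  rw [mem_SS, PI_zero, Pr, mem_filter, mem_Ioc]

/-- all but few blocks in `[N³, 16 N³)` have many primes -/
theorem blk (ε : ℝ) (hε : 0 < ε) (U : ℕ) : ∃ c : ℝ, 0 < c ∧ ∃ N₀ : ℕ, ∀ N : ℕ, N₀ ≤ N → ∀ H : ℕ,
    (N : ℝ) ^ (1 / 2 + ε) ≤ H → H ≤ N → ∃ B : Finset ℕ, (B.card : ℝ) ≤ (N : ℝ) ^ 3 / (H * Real.log N ^ U) ∧
      ∀ j : ℕ, N ^ 3 ≤ j * H → j * H < 16 * N ^ 3 → j ∉ B →
        c * H / Real.log N ≤ ((Pr (j * H) (j * H + H)).card : ℝ) := by
  classical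
  obtain ⟨ε1, hε1d⟩ : ∃ ε1, ε1 = min (ε / 4) (1 / 6) := ⟨_, rfl⟩
  have hε1 : 0 < ε1 := by rw [hε1d]; exact lt_min (by linarith) (by norm_num)
  have hε1a : ε1 ≤ ε / 4 := by rw [hε1d]; exact min_le_left _ _
  have hε1b : ε1 ≤ 1 / 6 := by rw [hε1d]; exact min_le_right _ _
  obtain ⟨c, hc, hc1, hev⟩ := blocks 0 ε1 hε1 hε1b (U + 1)
  obtain ⟨y0, hy0⟩ := eventually_atTop.1 hev
  have hlogt : Tendsto (fun x : ℕ => Real.log (x : ℝ)) atTop atTop :=
    Real.tendsto_log_atTop.comp tendsto_natCast_atTop_atTop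
  obtain ⟨n1, hn1⟩ := eventually_atTop.1 (hlogt.eventually_ge_atTop 15)
  obtain ⟨n2, hn2⟩ := eventually_atTop.1 (((tendsto_rpow_atTop hε1).comp
    (tendsto_natCast_atTop_atTop (R := ℝ))).eventually_ge_atTop (8 : ℝ))
  refine ⟨c / 4, by positivity, max y0 (max n1 (max n2 8)), fun N hN H hH hHN => ?_⟩
  have b1 : y0 ≤ N := le_trans (le_max_left _ _) hN
  have b2 : n1 ≤ N := le_trans (le_trans (le_max_left _ _) (le_max_right _ _)) hN
  have b3 : n2 ≤ N := le_trans (le_trans (le_trans (le_max_left _ _) (le_max_right _ _)) (le_max_right _ _)) hN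
  have b4 : 8 ≤ N := le_trans (le_trans (le_trans (le_max_right _ _) (le_max_right _ _)) (le_max_right _ _)) hN
  have hL := hn1 N b2
  have hN8 := hn2 N b3
  simp only [Function.comp] at hN8
  have hNr : (8 : ℝ) ≤ N := by exact_mod_cast b4
  have hN0 : (0 : ℝ) < N := by linarith
  obtain ⟨L, hLd⟩ : ∃ L, L = Real.log (N : ℝ) := ⟨_, rfl⟩
  rw [← hLd] at hL ⊢
  have hL0 : 0 < L := by linarith
  have hHr : (0 : ℝ) < H := lt_of_lt_of_le (by positivity) hH
  have hH0 : 0 < H := by exact_mod_cast hHr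
  have hN3 : N ≤ N ^ 3 := Nat.le_self_pow (by norm_num) N
  -- the four dyadic intervals
  have hy : ∀ i < 4, y0 ≤ 2 ^ i * N ^ 3 ∧ H ≤ 2 ^ i * N ^ 3 ∧ (((2 ^ i * N ^ 3 : ℕ) : ℝ)) ^ (1 / 6 + ε1) ≤ H ∧
      L ≤ Real.log ((2 ^ i * N ^ 3 : ℕ) : ℝ) ∧ Real.log ((2 ^ i * N ^ 3 : ℕ) : ℝ) ≤ 4 * L := by
    intro i hi
    have h1 : N ^ 3 ≤ 2 ^ i * N ^ 3 := Nat.le_mul_of_pos_left _ (by positivity)
    have h2 : (2 : ℕ) ^ i ≤ 8 := by interval_cases i <;> norm_num
    have h3 : ((2 ^ i * N ^ 3 : ℕ) : ℝ) ≤ 8 * (N : ℝ) ^ 3 := by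
      have : 2 ^ i * N ^ 3 ≤ 8 * N ^ 3 := Nat.mul_le_mul_right _ h2
      exact_mod_cast this
    have h4 : (N : ℝ) ≤ ((2 ^ i * N ^ 3 : ℕ) : ℝ) := by exact_mod_cast hN3.trans h1
    refine ⟨by omega, by omega, ?_, ?_, ?_⟩
    · refine le_trans ?_ hH
      have e1 : (1 / 6 + ε1 : ℝ) ≤ 1 := by linarith
      calc (((2 ^ i * N ^ 3 : ℕ) : ℝ)) ^ (1 / 6 + ε1) ≤ (8 * (N : ℝ) ^ 3) ^ (1 / 6 + ε1) :=
            Real.rpow_le_rpow (by positivity) h3 (by linarith)
        _ = (8 : ℝ) ^ (1 / 6 + ε1) * ((N : ℝ) ^ 3) ^ (1 / 6 + ε1) := Real.mul_rpow (by norm_num) (by positivity)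
        _ ≤ (8 : ℝ) ^ (1 : ℝ) * ((N : ℝ) ^ 3) ^ (1 / 6 + ε1) := by
            apply mul_le_mul_of_nonneg_right _ (by positivity)
            exact Real.rpow_le_rpow_of_exponent_le (by norm_num) e1
        _ = 8 * (N : ℝ) ^ (1 / 2 + 3 * ε1) := by
            rw [Real.rpow_one, ← Real.rpow_natCast (N : ℝ) 3, ← Real.rpow_mul hN0.le]
            congr 2
            push_cast
            ring
        _ ≤ (N : ℝ) ^ ε1 * (N : ℝ) ^ (1 / 2 + 3 * ε1) := by
            apply mul_le_mul_of_nonneg_right hN8 (by positivity)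
        _ = (N : ℝ) ^ (1 / 2 + 4 * ε1) := by
            rw [← Real.rpow_add hN0]
            congr 1
            ring
        _ ≤ (N : ℝ) ^ (1 / 2 + ε) := Real.rpow_le_rpow_of_exponent_le (by linarith) (by linarith)
    · rw [hLd]
      exact Real.log_le_log hN0 h4
    · have h5 : Real.log ((2 ^ i * N ^ 3 : ℕ) : ℝ) ≤ Real.log (8 * (N : ℝ) ^ 3) :=
        Real.log_le_log (by positivity) h3
      have h6 : Real.log (8 * (N : ℝ) ^ 3) = Real.log 8 + 3 * L := by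
        rw [Real.log_mul (by norm_num) (by positivity), Real.log_pow, hLd]
        push_cast
        ring
      have h7 : Real.log 8 ≤ L := by rw [hLd]; exact Real.log_le_log (by norm_num) hNr
      linarith
  refine ⟨(range 4).biUnion (fun i => bad 0 (2 ^ i * N ^ 3) H c), ?_, ?_⟩
  · have h1 : ((((range 4).biUnion (fun i => bad 0 (2 ^ i * N ^ 3) H c)).card : ℕ) : ℝ) ≤
        ∑ i ∈ range 4, ((bad 0 (2 ^ i * N ^ 3) H c).card : ℝ) := by
      exact_mod_cast card_biUnion_le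
    refine h1.trans ?_
    have h2 : ∀ i ∈ range 4, ((bad 0 (2 ^ i * N ^ 3) H c).card : ℝ) ≤ 2 ^ i * ((N : ℝ) ^ 3 / (H * L ^ (U + 1))) := by
      intro i hi
      rw [mem_range] at hi
      obtain ⟨a1, a2, a3, a4, a5⟩ := hy i hi
      refine (hy0 _ a1 H a3 a2).trans ?_
      rw [← mul_div_assoc]
      push_cast
      push_cast at a4
      gcongr
    refine (sum_le_sum h2).trans ?_
    rw [← sum_mul]
    have h3 : ∑ i ∈ range 4, (2 : ℝ) ^ i = 15 := by
      norm_num [sum_range_succ]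
    rw [h3]
    rw [mul_div_assoc', div_le_div_iff₀ (by positivity) (by positivity), pow_succ L U]
    have h4 : 15 * ((N : ℝ) ^ 3 * (H * L ^ U)) ≤ L * ((N : ℝ) ^ 3 * (H * L ^ U)) :=
      mul_le_mul_of_nonneg_right hL (by positivity)
    calc 15 * (N : ℝ) ^ 3 * (H * L ^ U) = 15 * ((N : ℝ) ^ 3 * (H * L ^ U)) := by ring
      _ ≤ L * ((N : ℝ) ^ 3 * (H * L ^ U)) := h4
      _ = _ := by ring
  · intro j h1 h2 h3
    have h4 : ∃ i < 4, 2 ^ i * N ^ 3 ≤ j * H ∧ j * H < 2 * (2 ^ i * N ^ 3) := by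
      by_cases g1 : j * H < 2 * N ^ 3
      · exact ⟨0, by norm_num, by omega, by omega⟩
      by_cases g2 : j * H < 4 * N ^ 3
      · exact ⟨1, by norm_num, by omega, by omega⟩
      by_cases g3 : j * H < 8 * N ^ 3
      · exact ⟨2, by norm_num, by omega, by omega⟩
      · exact ⟨3, by norm_num, by omega, by omega⟩
    obtain ⟨i, hi, h5, h6⟩ := h4
    obtain ⟨a1, a2, a3, a4, a5⟩ := hy i hi
    have h7 : j ∉ bad 0 (2 ^ i * N ^ 3) H c := fun h => h3 (mem_biUnion.2 ⟨i, mem_range.2 hi, h⟩)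
    rw [mem_bad hH0] at h7
    have h8 : ¬ ((SS 0 (j * H) (j * H + H)).card : ℝ) < c * H / Real.log ((2 ^ i * N ^ 3 : ℕ) : ℝ) ^ (0 + 1) :=
      fun h => h7 ⟨h5, h6, h⟩
    push Not at h8
    rw [Pr_eq]
    refine le_trans ?_ h8
    rw [zero_add, pow_one, div_le_div_iff₀ hL0 (by linarith)]
    have h9 : c / 4 * H * Real.log ((2 ^ i * N ^ 3 : ℕ) : ℝ) ≤ c / 4 * H * (4 * L) :=
      mul_le_mul_of_nonneg_left a5 (by positivity)
    nlinarith

/-- the blocks inside `[a, b]` -/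
def Jb (H a b : ℕ) : Finset ℕ := Ico (a / H + 1) (b / H)

lemma mem_Jb {H a b j : ℕ} (hH : 0 < H) (hj : j ∈ Jb H a b) : a ≤ j * H ∧ j * H + H ≤ b := by
  unfold Jb at hj
  rw [mem_Ico] at hj
  constructor
  · have h1 : a < (a / H + 1) * H := by
      have := Nat.lt_mul_div_succ a hH
      rwa [mul_comm] at this
    have h2 : (a / H + 1) * H ≤ j * H := Nat.mul_le_mul_right H hj.1
    omega
  · have h1 : (j + 1) * H ≤ b / H * H := Nat.mul_le_mul_right H hj.2
    have h2 : b / H * H ≤ b := Nat.div_mul_le_self b H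
    have h3 : (j + 1) * H = j * H + H := by ring
    omega

lemma card_Jb {H a b : ℕ} (hH : 0 < H) : (b - a : ℝ) / H - 2 ≤ (Jb H a b).card := by
  unfold Jb
  rw [Nat.card_Ico]
  have hHr : (0 : ℝ) < H := by exact_mod_cast hH
  have h1 : ((b / H : ℕ) : ℝ) - ((a / H + 1 : ℕ) : ℝ) ≤ ((b / H - (a / H + 1) : ℕ) : ℝ) := by
    rw [sub_le_iff_le_add]
    have h0 : b / H ≤ (b / H - (a / H + 1)) + (a / H + 1) := by omega
    exact_mod_cast h0
  refine le_trans ?_ h1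
  have h2 : (a / H : ℕ) ≤ (a : ℝ) / H := Nat.cast_div_le
  have h3 : (b : ℝ) / H < ((b / H : ℕ) : ℝ) + 1 := by
    rw [div_lt_iff₀ hHr]
    have := Nat.lt_mul_div_succ b hH
    have h4 : ((b : ℕ) : ℝ) < ((H * (b / H + 1) : ℕ) : ℝ) := by exact_mod_cast this
    push_cast at h4
    linarith
  rw [sub_div]
  push_cast
  linarith

/-- primes in an interval from the blocks -/
lemma primes_ge {H : ℕ} (hH : 0 < H) (B : Finset ℕ) (lo hi : ℕ) (τ : ℝ) (hτ : 0 ≤ τ)
    (hB : ∀ j : ℕ, lo ≤ j * H → j * H < hi → j ∉ B → τ ≤ ((Pr (j * H) (j * H + H)).card : ℝ))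
    (a b : ℕ) (ha : lo ≤ a) (hb : b ≤ hi) :
    τ * ((b - a : ℝ) / H - 2 - (((Jb H a b).filter (fun j => j ∈ B)).card : ℝ)) ≤ ((Pr a b).card : ℝ) := by
  classical
  have h1 := blocks_le (fun n => if n.Prime then (1 : ℝ) else 0) (fun n => by split_ifs <;> norm_num) H H a b le_rfl
    ((Jb H a b).filter (fun j => j ∉ B)) (fun j hj => mem_Jb hH (mem_filter.1 hj).1)
  have h2 : ∀ a b : ℕ, ∑ n ∈ Ioc a b, (if n.Prime then (1 : ℝ) else 0) = ((Pr a b).card : ℝ) := by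
    intro a b
    rw [Pr, card_filter]
    push_cast
    rfl
  simp only [h2] at h1
  refine le_trans ?_ h1
  have h3 : ∑ j ∈ (Jb H a b).filter (fun j => j ∉ B), τ ≤
      ∑ j ∈ (Jb H a b).filter (fun j => j ∉ B), ((Pr (j * H) (j * H + H)).card : ℝ) := by
    apply sum_le_sum
    intro j hj
    rw [mem_filter] at hj
    obtain ⟨h4, h5⟩ := mem_Jb hH hj.1
    exact hB j (by omega) (by omega) hj.2
  refine le_trans ?_ h3
  rw [sum_const, nsmul_eq_mul, mul_comm]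
  apply mul_le_mul_of_nonneg_right _ hτ
  have h4 := card_Jb (a := a) (b := b) hH
  have h5 := card_filter_add_card_filter_not (s := Jb H a b) (fun j => j ∈ B)
  have h6 : (((Jb H a b).filter (fun j => j ∈ B)).card : ℝ) + (((Jb H a b).filter (fun j => j ∉ B)).card : ℝ) =
      ((Jb H a b).card : ℝ) := by exact_mod_cast h5
  linarith

/-- the first moment -/
theorem first {H : ℕ} (hH : 0 < H) (B : Finset ℕ) (lo hi : ℕ) (τ g : ℝ) (hτ : 0 ≤ τ)
    (hB : ∀ j : ℕ, lo ≤ j * H → j * H < hi → j ∉ B → τ ≤ ((Pr (j * H) (j * H + H)).card : ℝ))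
    (a b : ℕ) (ha : lo ≤ a) (hb : b ≤ hi)
    (hg : ((B.filter (fun j => a ≤ j * H ∧ j * H + H ≤ b)).card : ℝ) ≤ g)
    (m h₀ K : ℕ) (hm : a + m + h₀ + K ≤ b) :
    τ * ((Pr a (a + m)).card * ((K : ℝ) / H - 2) - g * K) ≤
      ∑ h ∈ Ioc h₀ (h₀ + K), (((Pr a (a + m)).filter (fun p => (p + h).Prime)).card : ℝ) := by
  classical
  obtain ⟨P, hP⟩ : ∃ P, P = Pr a (a + m) := ⟨_, rfl⟩
  rw [← hP]
  have hPm : ∀ p ∈ P, a < p ∧ p ≤ a + m := by
    intro p hp
    rw [hP, Pr, mem_filter, mem_Ioc] at hp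
    exact hp.1
  have e1 : ∑ h ∈ Ioc h₀ (h₀ + K), ((P.filter (fun p => (p + h).Prime)).card : ℝ) =
      ∑ p ∈ P, ((Pr (p + h₀) (p + h₀ + K)).card : ℝ) := by
    have h1 : ∀ h, ((P.filter (fun p => (p + h).Prime)).card : ℝ) = ∑ p ∈ P, if (p + h).Prime then (1 : ℝ) else 0 := by
      intro h
      rw [card_filter]
      push_cast
      rfl
    simp only [h1]
    rw [sum_comm]
    apply sum_congr rfl
    intro p _
    have h2 : Pr (p + h₀) (p + h₀ + K) = ((Ioc h₀ (h₀ + K)).filter (fun h => (p + h).Prime)).image (fun h => p + h) := by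
      ext q
      rw [Pr, mem_filter, mem_Ioc, mem_image]
      constructor
      · rintro ⟨⟨h3, h4⟩, h5⟩
        refine ⟨q - p, ?_, by omega⟩
        rw [mem_filter, mem_Ioc]
        refine ⟨by omega, ?_⟩
        rwa [show p + (q - p) = q by omega]
      · rintro ⟨h, h3, rfl⟩
        rw [mem_filter, mem_Ioc] at h3
        exact ⟨by omega, h3.2⟩
    rw [h2, card_image_of_injective _ (fun x y h => by simpa using h), card_filter]
    push_cast
    rfl
  rw [e1]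
  have h1 : ∀ p ∈ P, τ * ((K : ℝ) / H - 2) - τ * (((Jb H (p + h₀) (p + h₀ + K)).filter (fun j => j ∈ B)).card : ℝ) ≤
      ((Pr (p + h₀) (p + h₀ + K)).card : ℝ) := by
    intro p hp
    have h2 := primes_ge hH B lo hi τ hτ hB (p + h₀) (p + h₀ + K) (by have := hPm p hp; omega) (by have := hPm p hp; omega)
    refine le_trans (le_of_eq ?_) h2
    push_cast
    ring
  refine le_trans ?_ (sum_le_sum h1)
  rw [sum_sub_distrib, sum_const, nsmul_eq_mul, ← mul_sum]
  have h2 : ∑ p ∈ P, (((Jb H (p + h₀) (p + h₀ + K)).filter (fun j => j ∈ B)).card : ℝ) ≤ g * K := by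
    have h3 : ∑ p ∈ P, (((Jb H (p + h₀) (p + h₀ + K)).filter (fun j => j ∈ B)).card : ℝ) ≤
        ∑ p ∈ P, ∑ j ∈ B.filter (fun j => a ≤ j * H ∧ j * H + H ≤ b),
          if p + h₀ ≤ j * H ∧ j * H < p + h₀ + K then (1 : ℝ) else 0 := by
      apply sum_le_sum
      intro p hp
      have hpm := hPm p hp
      rw [← sum_filter, sum_const, nsmul_eq_mul, mul_one]
      have h4 : (Jb H (p + h₀) (p + h₀ + K)).filter (fun j => j ∈ B) ⊆
          (B.filter (fun j => a ≤ j * H ∧ j * H + H ≤ b)).filter (fun j => p + h₀ ≤ j * H ∧ j * H < p + h₀ + K) := by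
        intro j hj
        rw [mem_filter] at hj
        obtain ⟨h5, h6⟩ := mem_Jb hH hj.1
        rw [mem_filter, mem_filter]
        exact ⟨⟨hj.2, by omega, by omega⟩, h5, by omega⟩
      exact_mod_cast card_le_card h4
    refine h3.trans ?_
    rw [sum_comm]
    have h4 : ∀ j ∈ B.filter (fun j => a ≤ j * H ∧ j * H + H ≤ b),
        ∑ p ∈ P, (if p + h₀ ≤ j * H ∧ j * H < p + h₀ + K then (1 : ℝ) else 0) ≤ K := by
      intro j _
      rw [← sum_filter, sum_const, nsmul_eq_mul, mul_one]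
      have h5 : (P.filter (fun p => p + h₀ ≤ j * H ∧ j * H < p + h₀ + K)).card ≤ (Ioc (j * H - K) (j * H)).card := by
        apply card_le_card_of_injOn (fun p => p + h₀)
        · intro p hp
          rw [mem_coe, mem_filter] at hp
          rw [mem_coe, mem_Ioc]
          have := hPm p hp.1
          show j * H - K < p + h₀ ∧ p + h₀ ≤ j * H
          omega
        · intro x _ y _ h
          simpa using h
      rw [Nat.card_Ioc] at h5
      have h6 : (P.filter (fun p => p + h₀ ≤ j * H ∧ j * H < p + h₀ + K)).card ≤ K := by omega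
      exact_mod_cast h6
    refine (sum_le_sum h4).trans ?_
    rw [sum_const, nsmul_eq_mul]
    exact mul_le_mul_of_nonneg_right hg (Nat.cast_nonneg _)
  have h3 := mul_le_mul_of_nonneg_left h2 hτ
  have e2 : τ * (P.card * ((K : ℝ) / H - 2) - g * K) = P.card * (τ * ((K : ℝ) / H - 2)) - τ * (g * K) := by ring
  rw [e2]
  linarith

end Pool.Agent.V5helper54.CB
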