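import Pool.Agent.V5helper54.CB.First
import Pool.Agent.H373R2.BH.Second
import Pool.Agent.H262R2.UK.Pair

/-! # Prime pairs between consecutive cubes for a positive proportion of the differences in every window -/

set_option autoImplicit false

namespace Pool.Agent.V5helper54.CB

open Finset Filter
open Pool.Agent.H646 (rat)

/-- the number of the pairs of primes `p`, `p + h` with `n³ < p` and `p + h < (n + 1)³` -/
def T (h n : ℕ) : ℕ := ((Ioo (n ^ 3) ((n + 1) ^ 3)).filter (fun p => p.Prime ∧ (p + h).Prime ∧ p + h < (n + 1) ^ 3)).card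

/-- few `n` have many bad blocks -/
lemma few_bad {H : ℕ} (hH : 0 < H) (B : Finset ℕ) (g : ℝ) (I : Finset ℕ) :
    ((I.filter (fun n => g < ((B.filter (fun j => n ^ 3 ≤ j * H ∧ j * H + H ≤ (n + 1) ^ 3)).card : ℝ))).card : ℝ) * g ≤
      (B.card : ℝ) := by
  classical
  obtain ⟨D, hD⟩ : ∃ D, D = I.filter (fun n => g < ((B.filter (fun j => n ^ 3 ≤ j * H ∧ j * H + H ≤ (n + 1) ^ 3)).card : ℝ)) :=
    ⟨_, rfl⟩
  rw [← hD]
  have h1 : ∑ n ∈ D, g ≤ ∑ n ∈ D, ((B.filter (fun j => n ^ 3 ≤ j * H ∧ j * H + H ≤ (n + 1) ^ 3)).card : ℝ) := by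
    apply sum_le_sum
    intro n hn
    rw [hD, mem_filter] at hn
    exact hn.2.le
  rw [sum_const, nsmul_eq_mul] at h1
  refine h1.trans ?_
  have h2 : ∑ n ∈ D, (B.filter (fun j => n ^ 3 ≤ j * H ∧ j * H + H ≤ (n + 1) ^ 3)).card =
      (D.biUnion (fun n => B.filter (fun j => n ^ 3 ≤ j * H ∧ j * H + H ≤ (n + 1) ^ 3))).card := by
    rw [card_biUnion]
    intro n _ n' _ hnn
    rw [Function.onFun, disjoint_left]
    intro j h3 h4
    rw [mem_filter] at h3 h4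
    rcases lt_or_gt_of_ne hnn with h | h
    · have h5 : (n + 1) ^ 3 ≤ n' ^ 3 := Nat.pow_le_pow_left h 3
      omega
    · have h5 : (n' + 1) ^ 3 ≤ n ^ 3 := Nat.pow_le_pow_left h 3
      omega
  have h3 : (D.biUnion (fun n => B.filter (fun j => n ^ 3 ≤ j * H ∧ j * H + H ≤ (n + 1) ^ 3))).card ≤ B.card := by
    apply card_le_card
    intro j hj
    rw [mem_biUnion] at hj
    obtain ⟨n, _, hj⟩ := hj
    exact (mem_filter.1 hj).1
  rw [← h2] at h3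
  exact_mod_cast h3

lemma pair_up {C : ℝ} (hC : 0 < C) {x₀ : ℕ} (hpb : ∀ x : ℕ, x₀ ≤ x → ∀ u v : ℕ, u < v →
      (#{n ∈ Icc 1 x | (n + u).Prime ∧ (n + v).Prime} : ℝ) ≤ C * x / (Real.log x) ^ 2 * rat (v - u))
    (a m h : ℕ) (hm : x₀ ≤ m) (hh : 0 < h) (M L : ℝ) (hM : (m : ℝ) ≤ M) (hL : 0 < L) (hL1 : L ≤ Real.log m) :
    (((Pr a (a + m)).filter (fun p => (p + h).Prime)).card : ℝ) ≤ C * M / L ^ 2 * rat h := by
  have h1 := hpb m hm a (a + h) (by omega)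
  rw [Nat.add_sub_cancel_left] at h1
  have h2 : ((Pr a (a + m)).filter (fun p => (p + h).Prime)).card ≤
      #{n ∈ Icc 1 m | (n + a).Prime ∧ (n + (a + h)).Prime} := by
    apply card_le_card_of_injOn (fun p => p - a)
    · intro p hp
      rw [mem_coe, mem_filter, Pr, mem_filter, mem_Ioc] at hp
      obtain ⟨⟨⟨h3, h4⟩, h5⟩, h6⟩ := hp
      rw [mem_coe, mem_filter, mem_Icc]
      refine ⟨(by show 1 ≤ p - a ∧ p - a ≤ m; omega), ?_, ?_⟩
      · show (p - a + a).Prime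
        rwa [show p - a + a = p by omega]
      · show (p - a + (a + h)).Prime
        rwa [show p - a + (a + h) = p + h by omega]
    · intro p hp q hq hpq
      rw [mem_coe, mem_filter, Pr, mem_filter, mem_Ioc] at hp hq
      simp only at hpq
      omega
  have h3 : (((Pr a (a + m)).filter (fun p => (p + h).Prime)).card : ℝ) ≤
      (#{n ∈ Icc 1 m | (n + a).Prime ∧ (n + (a + h)).Prime} : ℝ) := by exact_mod_cast h2
  refine h3.trans (h1.trans ?_)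
  have hrat : 0 ≤ rat h := by
    unfold rat
    positivity
  apply mul_le_mul_of_nonneg_right _ hrat
  have hm0 : (0 : ℝ) ≤ m := Nat.cast_nonneg m
  exact div_le_div₀ (mul_nonneg hC.le (hm0.trans hM)) (mul_le_mul_of_nonneg_left hM hC.le) (by positivity)
    (pow_le_pow_left₀ hL.le hL1 2)

/-- the final step: many differences -/
lemma many_h {κ θ C₂ Q : ℝ} (hθ : 0 < θ) (hC₂ : 0 < C₂) (hκ : 0 < κ) (hQ : 0 < Q) (W : Finset ℕ) (K : ℝ) (hK : 0 < K)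
    (hWK : (W.card : ℝ) = K) (r ρ : ℕ → ℝ)
    (hr : ∀ h ∈ W, r h ≤ κ * Q * ρ h) (hρ : ∑ h ∈ W, ρ h ^ 2 ≤ C₂ * K) (hR : 2 * θ * Q * K ≤ ∑ h ∈ W, r h) :
    θ ^ 2 / (κ ^ 2 * C₂) * K ≤ ((W.filter (fun h => θ * Q ≤ r h)).card : ℝ) := by
  classical
  obtain ⟨S, hS⟩ : ∃ S, S = W.filter (fun h => θ * Q ≤ r h) := ⟨_, rfl⟩
  rw [← hS]
  have hsub : S ⊆ W := by rw [hS]; exact filter_subset _ _
  have h1 : ∑ h ∈ W, r h ≤ ∑ h ∈ S, r h + θ * Q * K := by
    rw [← sum_filter_add_sum_filter_not W (fun h => θ * Q ≤ r h), ← hS]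
    have h2 : ∑ h ∈ W.filter (fun h => ¬ θ * Q ≤ r h), r h ≤ ∑ _h ∈ W.filter (fun h => ¬ θ * Q ≤ r h), θ * Q := by
      apply sum_le_sum
      intro h hh
      rw [mem_filter] at hh
      exact (not_le.1 hh.2).le
    rw [sum_const, nsmul_eq_mul] at h2
    have h3 : ((W.filter (fun h => ¬ θ * Q ≤ r h)).card : ℝ) ≤ K := by
      rw [← hWK]
      exact_mod_cast card_le_card (filter_subset _ _)
    have h4 : ((W.filter (fun h => ¬ θ * Q ≤ r h)).card : ℝ) * (θ * Q) ≤ K * (θ * Q) :=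
      mul_le_mul_of_nonneg_right h3 (by positivity)
    linarith
  have h2 : θ * Q * K ≤ ∑ h ∈ S, r h := by linarith
  have h3 : ∑ h ∈ S, r h ≤ κ * Q * ∑ h ∈ S, ρ h := by
    rw [mul_sum]
    exact sum_le_sum fun h hh => hr h (hsub hh)
  have h4 : (∑ h ∈ S, ρ h) ^ 2 ≤ S.card * ∑ h ∈ S, ρ h ^ 2 := sq_sum_le_card_mul_sum_sq
  have h5 : ∑ h ∈ S, ρ h ^ 2 ≤ C₂ * K :=
    (sum_le_sum_of_subset_of_nonneg hsub fun h _ _ => sq_nonneg _).trans hρ
  have h6 : θ * K ≤ κ * ∑ h ∈ S, ρ h := by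
    have h7 : Q * (θ * K) ≤ Q * (κ * ∑ h ∈ S, ρ h) := by linarith
    exact le_of_mul_le_mul_left h7 hQ
  have h7 : (θ * K) ^ 2 ≤ κ ^ 2 * (S.card * (C₂ * K)) := by
    calc (θ * K) ^ 2 ≤ (κ * ∑ h ∈ S, ρ h) ^ 2 := pow_le_pow_left₀ (by positivity) h6 2
      _ = κ ^ 2 * (∑ h ∈ S, ρ h) ^ 2 := by ring
      _ ≤ κ ^ 2 * (S.card * ∑ h ∈ S, ρ h ^ 2) := mul_le_mul_of_nonneg_left h4 (by positivity)
      _ ≤ κ ^ 2 * (S.card * (C₂ * K)) := by gcongr
  have h8 : K * (θ ^ 2 * K) ≤ K * (κ ^ 2 * C₂ * S.card) := by nlinarith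
  have h9 : θ ^ 2 * K ≤ κ ^ 2 * C₂ * S.card := le_of_mul_le_mul_left h8 hK
  rw [div_mul_eq_mul_div, div_le_iff₀ (by positivity)]
  linarith

end Pool.Agent.V5helper54.CB
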