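import Pool.Agent.V5helper54.CB.Main

/-! # Prime pairs between consecutive cubes for a positive proportion of the differences in every window: the theorem -/

set_option autoImplicit false

namespace Pool.Agent.V5helper54.CB

open Finset Filter
open Pool.Agent.H646 (rat)
open Pool.Agent.V5helper50.PW (log_le_rpow)

open Classical in
theorem main0 (ε δ : ℝ) (hε : 0 < ε) (hε1 : ε ≤ 1 / 4) (hδ : 0 < δ) (hδ1 : δ ≤ 1) (A : ℕ) :
    ∃ c : ℝ, 0 < c ∧ ∃ N₀ : ℕ, ∀ N : ℕ, N₀ ≤ N →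
    (((Ioc N (2 * N)).filter (fun n : ℕ => ¬ ∀ h₀ K : ℕ, (n : ℝ) ^ (1 / 2 + ε) ≤ K → (h₀ : ℝ) + K ≤ (3 - δ) * (n : ℝ) ^ 2 →
      c * K ≤ (((Ioc h₀ (h₀ + K)).filter (fun h => c * (n : ℝ) ^ 2 / Real.log n ^ 2 ≤ (T h n : ℝ))).card : ℝ))).card : ℝ) ≤
      N / Real.log N ^ A := by
  obtain ⟨c0, hc0, Nb, hNb⟩ := blk (ε / 2) (by linarith) (A + 2)
  obtain ⟨C, hC, x₀, hpb⟩ := Pool.Agent.H262R2.UK.pair_bound
  obtain ⟨C₂, hC₂, hrs⟩ := Pool.Agent.H373R2.BH.rat_shift 2 5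
  obtain ⟨κ, hκd⟩ : ∃ κ, κ = c0 * δ / 4 := ⟨_, rfl⟩
  have hκ : 0 < κ := by rw [hκd]; positivity
  obtain ⟨θ, hθd⟩ : ∃ θ, θ = c0 * κ / 8 := ⟨_, rfl⟩
  have hθ : 0 < θ := by rw [hθd]; positivity
  obtain ⟨c, hcd⟩ : ∃ c, c = min (θ / 4) (θ ^ 2 / ((4 * C) ^ 2 * C₂)) := ⟨_, rfl⟩
  have hc : 0 < c := by rw [hcd]; exact lt_min (by positivity) (by positivity)
  have hcθ : c ≤ θ / 4 := by rw [hcd]; exact min_le_left _ _
  have hcS : c ≤ θ ^ 2 / ((4 * C) ^ 2 * C₂) := by rw [hcd]; exact min_le_right _ _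
  have hlogt : Tendsto (fun x : ℕ => Real.log (x : ℝ)) atTop atTop :=
    Real.tendsto_log_atTop.comp tendsto_natCast_atTop_atTop
  obtain ⟨n1, hn1⟩ := eventually_atTop.1 (hlogt.eventually_ge_atTop (1 + 4 / κ + 8 / δ))
  obtain ⟨n2, hn2⟩ := eventually_atTop.1 (((tendsto_rpow_atTop (by linarith : 0 < ε / 2)).comp
    (tendsto_natCast_atTop_atTop (R := ℝ))).eventually_ge_atTop (8 : ℝ))
  obtain ⟨n3, hn3⟩ := exists_nat_ge (16 / δ + 16)
  refine ⟨c, hc, max Nb (max x₀ (max n1 (max n2 n3))), fun N hN => ?_⟩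
  have b1 : Nb ≤ N := le_trans (le_max_left _ _) hN
  have b2 : x₀ ≤ N := le_trans (le_trans (le_max_left _ _) (le_max_right _ _)) hN
  have b3 : n1 ≤ N := le_trans (le_trans (le_trans (le_max_left _ _) (le_max_right _ _)) (le_max_right _ _)) hN
  have b4 : n2 ≤ N := le_trans (le_trans (le_trans (le_trans (le_max_left _ _) (le_max_right _ _)) (le_max_right _ _))
    (le_max_right _ _)) hN
  have b5 : n3 ≤ N := le_trans (le_trans (le_trans (le_trans (le_max_right _ _) (le_max_right _ _)) (le_max_right _ _))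
    (le_max_right _ _)) hN
  have hL := hn1 N b3
  have hN8 := hn2 N b4
  simp only [Function.comp] at hN8
  have hN3r : 16 / δ + 16 ≤ (N : ℝ) := hn3.trans (by exact_mod_cast b5)
  have hd16 : 0 < 16 / δ := by positivity
  have hN16 : (16 : ℝ) ≤ N := by linarith
  have hN0 : (0 : ℝ) < N := by linarith
  have hN1 : (1 : ℝ) ≤ N := by linarith
  have hN16' : 16 ≤ N := by exact_mod_cast hN16
  have hδN : 16 ≤ δ * N := by
    have h1 : δ * (16 / δ) ≤ δ * N := mul_le_mul_of_nonneg_left (by linarith) hδ.le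
    rwa [mul_div_cancel₀ _ hδ.ne'] at h1
  obtain ⟨L, hLd⟩ : ∃ L, L = Real.log (N : ℝ) := ⟨_, rfl⟩
  rw [← hLd] at hL ⊢
  have hk4 : 0 < 4 / κ := by positivity
  have hd8 : 0 < 8 / δ := by positivity
  have hL1 : 1 ≤ L := by linarith
  have hL0 : 0 < L := by linarith
  have hLκ : 4 ≤ κ * L := by
    have h1 : κ * (4 / κ) ≤ κ * L := mul_le_mul_of_nonneg_left (by linarith) hκ.le
    rwa [mul_div_cancel₀ _ hκ.ne'] at h1
  have hLδ : 8 ≤ δ * L := by
    have h1 : δ * (8 / δ) ≤ δ * L := mul_le_mul_of_nonneg_left (by linarith) hδ.le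
    rwa [mul_div_cancel₀ _ hδ.ne'] at h1
  -- the length of the blocks
  obtain ⟨H, hHd⟩ : ∃ H : ℕ, H = ⌈(N : ℝ) ^ (1 / 2 + ε / 2)⌉₊ := ⟨_, rfl⟩
  have hH1 : (N : ℝ) ^ (1 / 2 + ε / 2) ≤ H := by rw [hHd]; exact Nat.le_ceil _
  have hpow1 : (1 : ℝ) ≤ (N : ℝ) ^ (1 / 2 + ε / 2) := Real.one_le_rpow hN1 (by linarith)
  have hH2 : (H : ℝ) ≤ 2 * (N : ℝ) ^ (1 / 2 + ε / 2) := by
    have : (H : ℝ) < (N : ℝ) ^ (1 / 2 + ε / 2) + 1 := by rw [hHd]; exact Nat.ceil_lt_add_one (by positivity)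
    linarith
  have hHr : (0 : ℝ) < H := by linarith
  have hH0 : 0 < H := by exact_mod_cast hHr
  have hH4 : 4 * (H : ℝ) ≤ (N : ℝ) ^ (1 / 2 + ε) := by
    calc 4 * (H : ℝ) ≤ 8 * (N : ℝ) ^ (1 / 2 + ε / 2) := by linarith
      _ ≤ (N : ℝ) ^ (ε / 2) * (N : ℝ) ^ (1 / 2 + ε / 2) := mul_le_mul_of_nonneg_right hN8 (by positivity)
      _ = (N : ℝ) ^ (1 / 2 + ε) := by
          rw [← Real.rpow_add hN0]
          congr 1
          ring
  have hHN4 : 4 * (H : ℝ) ≤ N := by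
    refine hH4.trans ?_
    calc (N : ℝ) ^ (1 / 2 + ε) ≤ (N : ℝ) ^ (1 : ℝ) := Real.rpow_le_rpow_of_exponent_le hN1 (by linarith)
      _ = N := Real.rpow_one _
  have hHN : H ≤ N := by
    have : (H : ℝ) ≤ N := by linarith
    exact_mod_cast this
  obtain ⟨B, hBc, hB⟩ := hNb N b1 H hH1 hHN
  rw [← hLd] at hBc hB
  obtain ⟨τ, hτd⟩ : ∃ τ, τ = c0 * H / L := ⟨_, rfl⟩
  have hτ : 0 < τ := by rw [hτd]; positivity
  obtain ⟨g, hgd⟩ : ∃ g : ℝ, g = (N : ℝ) ^ 2 / (H * L ^ 2) := ⟨_, rfl⟩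
  have hg0 : 0 < g := by rw [hgd]; positivity
  have hfew := few_bad hH0 B g (Ioc N (2 * N))
  -- the exceptional set
  have hcount : (((Ioc N (2 * N)).filter (fun n => g < ((B.filter (fun j => n ^ 3 ≤ j * H ∧ j * H + H ≤ (n + 1) ^ 3)).card : ℝ))).card : ℝ)
      ≤ N / L ^ A := by
    have h1 := hfew.trans hBc
    rw [← le_div_iff₀ hg0] at h1
    refine h1.trans (le_of_eq ?_)
    rw [hgd, pow_add]
    field_simp
  refine le_trans ?_ hcount
  have hsubset : (Ioc N (2 * N)).filter (fun n : ℕ => ¬ ∀ h₀ K : ℕ, (n : ℝ) ^ (1 / 2 + ε) ≤ K → (h₀ : ℝ) + K ≤ (3 - δ) * (n : ℝ) ^ 2 →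
      c * K ≤ (((Ioc h₀ (h₀ + K)).filter (fun h => c * (n : ℝ) ^ 2 / Real.log n ^ 2 ≤ (T h n : ℝ))).card : ℝ)) ⊆
      (Ioc N (2 * N)).filter (fun n => g < ((B.filter (fun j => n ^ 3 ≤ j * H ∧ j * H + H ≤ (n + 1) ^ 3)).card : ℝ)) := by
    intro n hn
    rw [mem_filter] at hn ⊢
    refine ⟨hn.1, ?_⟩
    by_contra hcon
    push Not at hcon
    apply hn.2
    intro h₀ K hK hKn
    obtain ⟨hnN, hn2N⟩ := mem_Ioc.1 hn.1
    have hnr : (N : ℝ) ≤ n := by exact_mod_cast hnN.le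
    have hn2r : (n : ℝ) ≤ 2 * N := by exact_mod_cast hn2N
    have hnn0 : (0 : ℝ) < n := by linarith
    have hnsq : (N : ℝ) ^ 2 ≤ (n : ℝ) ^ 2 := pow_le_pow_left₀ hN0.le hnr 2
    have hnsq2 : (n : ℝ) ^ 2 ≤ 4 * (N : ℝ) ^ 2 := by
      have h1 := pow_le_pow_left₀ hnn0.le hn2r 2
      have h2 : (2 * (N : ℝ)) ^ 2 = 4 * (N : ℝ) ^ 2 := by ring
      rwa [h2] at h1
    have hδNN : 16 * (N : ℝ) ≤ δ * (N : ℝ) ^ 2 := by
      have h1 := mul_le_mul_of_nonneg_right hδN hN0.le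
      have h2 : δ * (N : ℝ) * N = δ * (N : ℝ) ^ 2 := by ring
      rwa [h2] at h1
    -- the length of the initial part
    obtain ⟨m, hmd⟩ : ∃ m : ℕ, m = ⌊δ * (n : ℝ) ^ 2⌋₊ := ⟨_, rfl⟩
    have hm1 : (m : ℝ) ≤ δ * (n : ℝ) ^ 2 := by rw [hmd]; exact Nat.floor_le (by positivity)
    have hm2 : δ * (n : ℝ) ^ 2 < m + 1 := by rw [hmd]; exact Nat.lt_floor_add_one _
    have hm3 : δ * (N : ℝ) ^ 2 / 2 ≤ m := by
      have h1 : δ * (N : ℝ) ^ 2 ≤ δ * (n : ℝ) ^ 2 := mul_le_mul_of_nonneg_left hnsq hδ.le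
      have h2 : 16 ≤ δ * (N : ℝ) ^ 2 := by linarith
      linarith
    have hmN : (N : ℝ) ≤ m := by
      refine le_trans ?_ hm3
      linarith
    have hmn : (m : ℝ) ≤ (n : ℝ) ^ 2 := hm1.trans (mul_le_of_le_one_left (by positivity) hδ1)
    have htot : m + h₀ + K ≤ 3 * n ^ 2 := by
      have h1 : (m : ℝ) + h₀ + K ≤ 3 * (n : ℝ) ^ 2 := by linarith
      exact_mod_cast h1
    have hcube : (n + 1) ^ 3 = n ^ 3 + 3 * n ^ 2 + 3 * n + 1 := by ring
    have hcubeN : N ^ 3 ≤ n ^ 3 := Nat.pow_le_pow_left hnN.le 3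
    have hcube16 : (n + 1) ^ 3 ≤ 16 * N ^ 3 := by
      have h1 : 4 * (n + 1) ≤ 9 * N := by omega
      have h2 : (4 * (n + 1)) ^ 3 ≤ (9 * N) ^ 3 := Nat.pow_le_pow_left h1 3
      rw [mul_pow, mul_pow] at h2
      norm_num at h2
      omega
    have hBτ : ∀ j : ℕ, N ^ 3 ≤ j * H → j * H < 16 * N ^ 3 → j ∉ B → τ ≤ ((Pr (j * H) (j * H + H)).card : ℝ) := by
      intro j g1 g2 g3
      rw [hτd]
      exact hB j g1 g2 g3
    -- the number of primes in the initial part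
    obtain ⟨P, hPd⟩ : ∃ P, P = Pr (n ^ 3) (n ^ 3 + m) := ⟨_, rfl⟩
    have hPlow : κ * (N : ℝ) ^ 2 / L ≤ P.card := by
      have h1 := primes_ge hH0 B (N ^ 3) (16 * N ^ 3) τ hτ.le hBτ (n ^ 3) (n ^ 3 + m) hcubeN (by omega)
      rw [← hPd] at h1
      refine le_trans ?_ h1
      have h2 : (((Jb H (n ^ 3) (n ^ 3 + m)).filter (fun j => j ∈ B)).card : ℝ) ≤ g := by
        refine le_trans ?_ hcon
        have h3 : (Jb H (n ^ 3) (n ^ 3 + m)).filter (fun j => j ∈ B) ⊆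
            B.filter (fun j => n ^ 3 ≤ j * H ∧ j * H + H ≤ (n + 1) ^ 3) := by
          intro j hj
          rw [mem_filter] at hj ⊢
          obtain ⟨h4, h5⟩ := mem_Jb hH0 hj.1
          exact ⟨hj.2, h4, by omega⟩
        exact_mod_cast card_le_card h3
      have h3 : (δ * (N : ℝ) ^ 2 / 4) / H ≤ ((((n ^ 3 + m : ℕ) : ℝ) - ((n ^ 3 : ℕ) : ℝ)) / H - 2 - (((Jb H (n ^ 3) (n ^ 3 + m)).filter (fun j => j ∈ B)).card : ℝ)) := by
        have h4 : (((n ^ 3 + m : ℕ) : ℝ) - ((n ^ 3 : ℕ) : ℝ)) = m := by push_cast; ring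
        rw [h4]
        have h5 : g ≤ (δ * (N : ℝ) ^ 2 / 8) / H := by
          rw [hgd, div_le_div_iff₀ (by positivity) hHr]
          have h6 : 8 ≤ δ * L ^ 2 := by
            have h8 := mul_le_mul_of_nonneg_right hLδ hL0.le
            have h9 : δ * L * L = δ * L ^ 2 := by ring
            rw [h9] at h8
            linarith
          have h7 := mul_le_mul_of_nonneg_left h6 (by positivity : 0 ≤ (N : ℝ) ^ 2 * H)
          calc (N : ℝ) ^ 2 * H = ((N : ℝ) ^ 2 * H * 8) / 8 := by ring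
            _ ≤ ((N : ℝ) ^ 2 * H * (δ * L ^ 2)) / 8 := by linarith
            _ = _ := by ring
        have h6 : (δ * (N : ℝ) ^ 2 / 2) / H ≤ m / H := div_le_div_of_nonneg_right hm3 hHr.le
        have h7 : 2 ≤ (δ * (N : ℝ) ^ 2 / 8) / H := by
          rw [le_div_iff₀ hHr]
          linarith
        have h8 : (δ * (N : ℝ) ^ 2 / 2) / H = (δ * (N : ℝ) ^ 2 / 4) / H + (δ * (N : ℝ) ^ 2 / 8) / H + (δ * (N : ℝ) ^ 2 / 8) / H := by
          ring
        linarith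
      calc κ * (N : ℝ) ^ 2 / L = τ * ((δ * (N : ℝ) ^ 2 / 4) / H) := by
            rw [hτd, hκd]
            field_simp
        _ ≤ _ := mul_le_mul_of_nonneg_left h3 hτ.le
    -- the first moment
    have hKN : (N : ℝ) ^ (1 / 2 + ε) ≤ K := (Real.rpow_le_rpow hN0.le hnr (by linarith)).trans hK
    have hK4 : 4 * (H : ℝ) ≤ K := hH4.trans hKN
    have hK0 : (0 : ℝ) < K := by linarith
    have hfirst := first hH0 B (N ^ 3) (16 * N ^ 3) τ g hτ.le hBτ (n ^ 3) ((n + 1) ^ 3) hcubeN hcube16 hcon m h₀ K (by omega)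
    rw [← hPd] at hfirst
    have hR : 2 * θ * ((N : ℝ) ^ 2 / L ^ 2) * K ≤ ∑ h ∈ Ioc h₀ (h₀ + K), ((P.filter (fun p => (p + h).Prime)).card : ℝ) := by
      refine le_trans ?_ hfirst
      have h1 : (K : ℝ) / H - 2 ≥ K / (2 * H) := by
        have h2 : (K : ℝ) / H = K / (2 * H) + K / (2 * H) := by field_simp; ring
        have h3 : 2 ≤ (K : ℝ) / (2 * H) := by
          rw [le_div_iff₀ (by positivity)]
          linarith
        linarith
      have h2 : (P.card : ℝ) * (K / (2 * H)) ≤ P.card * ((K : ℝ) / H - 2) := mul_le_mul_of_nonneg_left h1 (Nat.cast_nonneg _)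
      have h3 : κ * (N : ℝ) ^ 2 / L * (K / (2 * H)) ≤ (P.card : ℝ) * (K / (2 * H)) :=
        mul_le_mul_of_nonneg_right hPlow (by positivity)
      have h4 : g * K ≤ κ * (N : ℝ) ^ 2 / L * (K / (4 * H)) := by
        rw [hgd, div_mul_eq_mul_div, div_mul_div_comm, div_le_div_iff₀ (by positivity) (by positivity)]
        have h7 := mul_le_mul_of_nonneg_left hLκ (by positivity : 0 ≤ (N : ℝ) ^ 2 * K * H * L)
        calc (N : ℝ) ^ 2 * K * (L * (4 * H)) = (N : ℝ) ^ 2 * K * H * L * 4 := by ring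
          _ ≤ (N : ℝ) ^ 2 * K * H * L * (κ * L) := h7
          _ = _ := by ring
      have h5 : κ * (N : ℝ) ^ 2 / L * (K / (2 * H)) = κ * (N : ℝ) ^ 2 / L * (K / (4 * H)) + κ * (N : ℝ) ^ 2 / L * (K / (4 * H)) := by
        field_simp
        ring
      have h6 : κ * (N : ℝ) ^ 2 / L * (K / (4 * H)) ≤ P.card * ((K : ℝ) / H - 2) - g * K := by linarith
      calc 2 * θ * ((N : ℝ) ^ 2 / L ^ 2) * K = τ * (κ * (N : ℝ) ^ 2 / L * (K / (4 * H))) := by
            rw [hτd, hθd]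
            field_simp
            ring
        _ ≤ _ := mul_le_mul_of_nonneg_left h6 hτ.le
    -- the upper bound
    have hlm : L ≤ Real.log m := by rw [hLd]; exact Real.log_le_log hN0 hmN
    have hup : ∀ h ∈ Ioc h₀ (h₀ + K), ((P.filter (fun p => (p + h).Prime)).card : ℝ) ≤
        (4 * C) * ((N : ℝ) ^ 2 / L ^ 2) * rat h := by
      intro h hh
      rw [mem_Ioc] at hh
      have h1 := pair_up hC hpb (n ^ 3) m h (by
        have : (N : ℝ) ≤ m := hmN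
        have h2 : N ≤ m := by exact_mod_cast this
        omega) (by omega) (4 * (N : ℝ) ^ 2) L (hmn.trans hnsq2) hL0 hlm
      rw [← hPd] at h1
      refine h1.trans (le_of_eq ?_)
      ring
    have hsum : ∑ h ∈ Ioc h₀ (h₀ + K), rat h ^ 2 ≤ C₂ * K := by
      have hK1 : 1 ≤ K := by exact_mod_cast (by exact_mod_cast hK0 : 0 < K)
      have hKsq : (n : ℝ) ≤ (K : ℝ) ^ 2 := by
        have h1 : (n : ℝ) ^ (1 / 2 : ℝ) ≤ K := by
          refine le_trans (Real.rpow_le_rpow_of_exponent_le (by linarith) (by linarith)) hK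
        calc (n : ℝ) = ((n : ℝ) ^ (1 / 2 : ℝ)) ^ 2 := by
              rw [← Real.rpow_natCast, ← Real.rpow_mul hnn0.le]
              norm_num
          _ ≤ (K : ℝ) ^ 2 := pow_le_pow_left₀ (by positivity) h1 2
      have hKsq' : n ≤ K ^ 2 := by exact_mod_cast hKsq
      have hK3 : 3 ≤ K := by
        by_contra hcon3
        push Not at hcon3
        have : K ^ 2 ≤ 2 ^ 2 := Nat.pow_le_pow_left (by omega) 2
        omega
      have h1 := hrs K h₀ hK1 (by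
        have h2 : n ^ 2 ≤ (K ^ 2) ^ 2 := Nat.pow_le_pow_left hKsq' 2
        calc h₀ ≤ 3 * n ^ 2 := by omega
          _ ≤ K * (K ^ 2) ^ 2 := Nat.mul_le_mul hK3 h2
          _ = K ^ 5 := by ring)
      refine le_trans (le_of_eq ?_) h1
      apply Finset.sum_bij' (fun h _ => h - h₀) (fun w _ => w + h₀)
      · intro h hh
        rw [mem_Ioc] at hh
        rw [mem_Icc]
        omega
      · intro w hw
        rw [mem_Icc] at hw
        rw [mem_Ioc]
        omega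
      · intro h hh
        rw [mem_Ioc] at hh
        omega
      · intro w hw
        omega
      · intro h hh
        rw [mem_Ioc] at hh
        rw [Nat.sub_add_cancel (by omega)]
    have hmany := many_h (κ := 4 * C) (θ := θ) (C₂ := C₂) (Q := (N : ℝ) ^ 2 / L ^ 2) hθ hC₂ (by positivity) (by positivity)
      (Ioc h₀ (h₀ + K)) K hK0 (by rw [Nat.card_Ioc]; congr 1; omega) (fun h => ((P.filter (fun p => (p + h).Prime)).card : ℝ))
      (fun h => rat h) hup hsum hR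
    have hcK : c * K ≤ θ ^ 2 / ((4 * C) ^ 2 * C₂) * K := mul_le_mul_of_nonneg_right hcS hK0.le
    refine hcK.trans (hmany.trans ?_)
    have hfin : (Ioc h₀ (h₀ + K)).filter (fun h => θ * ((N : ℝ) ^ 2 / L ^ 2) ≤ ((P.filter (fun p => (p + h).Prime)).card : ℝ)) ⊆
        (Ioc h₀ (h₀ + K)).filter (fun h => c * (n : ℝ) ^ 2 / Real.log n ^ 2 ≤ (T h n : ℝ)) := by
      intro h hh
      rw [mem_filter] at hh ⊢
      refine ⟨hh.1, ?_⟩
      have hhI := mem_Ioc.1 hh.1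
      have h1 : ((P.filter (fun p => (p + h).Prime)).card : ℝ) ≤ T h n := by
        have h2 : (P.filter (fun p => (p + h).Prime)).card ≤ T h n := by
          unfold T
          apply card_le_card
          intro p hp
          rw [mem_filter, hPd, Pr, mem_filter, mem_Ioc] at hp
          rw [mem_filter, mem_Ioo]
          obtain ⟨⟨⟨h3, h4⟩, h5⟩, h6⟩ := hp
          exact ⟨by omega, h5, h6, by omega⟩
        exact_mod_cast h2
      refine le_trans ?_ (hh.2.trans h1)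
      have hln : L ≤ Real.log n := by rw [hLd]; exact Real.log_le_log hN0 hnr
      calc c * (n : ℝ) ^ 2 / Real.log n ^ 2 ≤ c * (n : ℝ) ^ 2 / L ^ 2 := by gcongr
        _ ≤ (θ / 4) * (4 * (N : ℝ) ^ 2) / L ^ 2 := by gcongr
        _ = θ * ((N : ℝ) ^ 2 / L ^ 2) := by ring
    exact_mod_cast card_le_card hfin
  exact_mod_cast card_le_card hsubset

end Pool.Agent.V5helper54.CB
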